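import Pool.Agent.H22.CO.Grp

/-!
# Swaps with reference cells
-/

set_option autoImplicit false

namespace Pool.H22.CO

open Set Function Ordinal Pool.H62.VT Pool.H5.AA Pool.H22.SY

variable {a : ℕ → ℕ} {M : Str a} {D : Set ℕ} {G : Subgroup (Equiv.Perm ℕ)} {T S : Finset ℕ}
  {k : Equiv.Perm ℕ} {m : ℕ}

/-- a local map gives a swap -/
theorem swap_of_loc (hG : Clo G) (hT : IsCell G T) (hk : k ∈ G) (hl : Loc k T S) (hne : S ≠ T) :
    ∃ P ∈ G, (∀ x ∈ T, P x = k x) ∧ (∀ x ∈ T, P (k x) = x) ∧ ∀ x, x ∉ T → x ∉ S → P x = x := by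
  have hS : IsCell G S := hl.1 ▸ hT.image hk
  have hd : ∀ x ∈ T, x ∉ S := fun x hx hx' => hne (hS.eq_of_mem hG hT hx' hx)
  have hkS : ∀ x ∈ S, k x ∈ T := by
    intro x hx
    by_contra h1
    by_cases h2 : k x ∈ S
    · rw [← hl.1] at h2
      obtain ⟨y, hy, h3⟩ := Finset.mem_image.1 h2
      exact hd y hy ((k.injective h3).symm ▸ hx)
    · have h3 := hl.2 _ h1 h2
      exact h2 (by rw [k.injective h3]; exact hx)
  have hl2 : Loc k S T := by
    refine ⟨?_, fun x hx hx' => hl.2 x hx' hx⟩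
    apply Finset.eq_of_subset_of_card_le
    · intro y hy
      obtain ⟨x, hx, rfl⟩ := Finset.mem_image.1 hy
      exact hkS x hx
    · rw [Finset.card_image_of_injective _ k.injective, ← hl.1,
        Finset.card_image_of_injective _ k.injective]
  obtain ⟨h, hh, hhl, hhx⟩ := hl.comp hG hT hk hk hl2
  have e1 : ∀ x, x ∉ T → h⁻¹ x = x := fun x hx => hhl.inv.2 x hx hx
  refine ⟨h⁻¹ * k, G.mul_mem (G.inv_mem hh) hk, fun x hx => ?_, fun x hx => ?_,
    fun x hx hx' => ?_⟩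
  · show h⁻¹ (k x) = k x
    exact e1 _ fun h1 => hd _ h1 (hl.maps hx)
  · show h⁻¹ (k (k x)) = x
    rw [← hhx x hx]
    exact p2 h x
  · show h⁻¹ (k x) = x
    rw [hl.2 x hx hx', e1 x hx]

open Classical in
/-- exchange `z d` and `q d` for all `d` -/
noncomputable def swf (z q : Fin m → ℕ) (x : ℕ) : ℕ :=
  if h : ∃ d, x = z d then q h.choose else if h : ∃ d, x = q d then z h.choose else x

theorem swf_z {z q : Fin m → ℕ} (hz : Injective z) (d : Fin m) : swf z q (z d) = q d := by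
  have h : ∃ d', z d = z d' := ⟨d, rfl⟩
  unfold swf
  rw [dif_pos h]
  congr 1
  exact (hz h.choose_spec).symm

theorem swf_q {z q : Fin m → ℕ} (hq : Injective q) (hzq : ∀ d d', q d ≠ z d') (d : Fin m) :
    swf z q (q d) = z d := by
  have h : ∃ d', q d = q d' := ⟨d, rfl⟩
  unfold swf
  rw [dif_neg (by rintro ⟨d', h'⟩; exact hzq _ _ h'), dif_pos h]
  congr 1
  exact (hq h.choose_spec).symm

theorem swf_out {z q : Fin m → ℕ} {x : ℕ} (h1 : ∀ d, x ≠ z d) (h2 : ∀ d, x ≠ q d) :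
    swf z q x = x := by
  unfold swf
  rw [dif_neg (by rintro ⟨d', h'⟩; exact h1 _ h'), dif_neg (by rintro ⟨d', h'⟩; exact h2 _ h')]

theorem swf_swf {z q : Fin m → ℕ} (hz : Injective z) (hq : Injective q)
    (hzq : ∀ d d', q d ≠ z d') (x : ℕ) : swf z q (swf z q x) = x := by
  by_cases h1 : ∃ d, x = z d
  · obtain ⟨d, rfl⟩ := h1
    rw [swf_z hz, swf_q hq hzq]
  · by_cases h2 : ∃ d, x = q d
    · obtain ⟨d, rfl⟩ := h2
      rw [swf_q hq hzq, swf_z hz]
    · push Not at h1 h2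
      rw [swf_out h1 h2, swf_out h1 h2]

/-- `q` enumerates a cell which can be exchanged with the cell enumerated by `z` -/
def AsQ (M : Str a) (D : Set ℕ) (z q : Fin m → ℕ) : Prop :=
  Injective q ∧ (∀ d, q d ∈ D) ∧ (∀ d d', q d ≠ z d') ∧
    ∀ (n : ℕ) (t : Fin (a n) → ℕ), M n (fun i => swf z q (t i)) = M n t

/-- the exchange as a member of the group -/
theorem swap_of_asq {z q : Fin m → ℕ} (hz : Injective z) (hzD : ∀ d, z d ∈ D)
    (h : AsQ M D z q) : ∃ k ∈ Au M D, Loc k (Finset.univ.image z) (Finset.univ.image q) ∧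
      ∀ d, k (z d) = q d := by
  obtain ⟨h1, h2, h3, h4⟩ := h
  let k : Equiv.Perm ℕ := ⟨swf z q, swf z q, swf_swf hz h1 h3, swf_swf hz h1 h3⟩
  have hk : ∀ x, k x = swf z q x := fun x => rfl
  have hkz : ∀ d, k (z d) = q d := fun d => swf_z hz d
  refine ⟨k, ⟨h4, fun x hx => ?_⟩, ⟨?_, fun x hx hx' => ?_⟩, hkz⟩
  · rw [hk]
    exact swf_out (fun d h => hx (h ▸ hzD d)) (fun d h => hx (h ▸ h2 d))
  · rw [Finset.image_image]
    exact Finset.image_congr fun d _ => hkz d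
  · rw [hk]
    refine swf_out (fun d h => hx ?_) (fun d h => hx' ?_)
    · exact Finset.mem_image.2 ⟨d, Finset.mem_univ _, h.symm⟩
    · exact Finset.mem_image.2 ⟨d, Finset.mem_univ _, h.symm⟩

theorem asq_of_loc {z : Fin m → ℕ} (hz : Injective z)
    (hT : IsCell (Au M D) (Finset.univ.image z)) (hTD : ∀ x ∈ S, x ∈ D) (hk : k ∈ Au M D)
    (hl : Loc k (Finset.univ.image z) S) (hne : S ≠ Finset.univ.image z) :
    AsQ M D z fun d => k (z d) := by
  obtain ⟨P, hP, hP1, hP2, hP3⟩ := swap_of_loc (au_clo M D) hT hk hl hne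
  have hzm : ∀ d, z d ∈ Finset.univ.image z := fun d =>
    Finset.mem_image_of_mem z (Finset.mem_univ d)
  have hS : IsCell (Au M D) S := hl.1 ▸ hT.image hk
  have hqS : ∀ d, k (z d) ∈ S := fun d => hl.maps (hzm d)
  have hzq : ∀ d d', k (z d) ≠ z d' := fun d d' h =>
    hne (hS.eq_of_mem (au_clo M D) hT (h ▸ hqS d) (hzm d'))
  have hqi : Injective fun d => k (z d) := fun d d' h => hz (k.injective h)
  refine ⟨hqi, fun d => hTD _ (hqS d), hzq, fun n t => ?_⟩
  rw [← hP.1 n t]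
  congr 1
  funext i
  by_cases h1 : ∃ d, t i = z d
  · obtain ⟨d, hd⟩ := h1
    rw [hd, swf_z hz, hP1 _ (hzm d)]
  · by_cases h2 : ∃ d, t i = k (z d)
    · obtain ⟨d, hd⟩ := h2
      rw [hd, swf_q hqi hzq, hP2 _ (hzm d)]
    · push Not at h1 h2
      rw [swf_out h1 h2, hP3]
      · intro h3
        obtain ⟨d, -, hd⟩ := Finset.mem_image.1 h3
        exact h1 d hd.symm
      · intro h3
        rw [← hl.1] at h3
        obtain ⟨y, hy, h4⟩ := Finset.mem_image.1 h3
        obtain ⟨d, -, hd⟩ := Finset.mem_image.1 hy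
        exact h2 d (by rw [hd, h4])

end Pool.H22.CO
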