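import Pool.Agent.H5.AA.Cel
import Pool.Agent.H22.SY.Def

/-!
# Coloured structures: definitions

`nu M` is `M` without the unary relations (the values of the constant tuples are forgotten).
-/

set_option autoImplicit false

namespace Pool.H22.CO

open Set Ordinal Pool.H62.VT Pool.H5.AA Pool.H22.SY

variable {a : ℕ → ℕ}

open Classical in
/-- the structure without its unary relations -/
noncomputable def nu (M : Str a) : Str a :=
  fun n t => decide ((∃ i j, t i ≠ t j) ∧ M n t = true)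

/-- the colour of a point -/
def pc (M : Str a) (x : ℕ) : ℕ → Bool := fun n => M n (fun _ => x)

/-- the automorphisms of `M` which fix every point outside `D` -/
def Au (M : Str a) (D : Set ℕ) : Subgroup (Equiv.Perm ℕ) where
  carrier := {g | (∀ (n : ℕ) (t : Fin (a n) → ℕ), M n (fun i => g (t i)) = M n t) ∧
    ∀ x, x ∉ D → g x = x}
  mul_mem' := by
    rintro g h ⟨h1, h2⟩ ⟨h3, h4⟩
    refine ⟨fun n t => ?_, fun x hx => ?_⟩
    · exact (h1 n fun i => h (t i)).trans (h3 n t)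
    · show g (h x) = x
      rw [h4 x hx, h2 x hx]
  one_mem' := ⟨fun n t => rfl, fun x _ => rfl⟩
  inv_mem' := by
    rintro g ⟨h1, h2⟩
    refine ⟨fun n t => ?_, fun x hx => ?_⟩
    · have := h1 n (fun i => g⁻¹ (t i))
      have e1 : ∀ y, g (g⁻¹ y) = y := g.apply_symm_apply
      simp only [e1] at this
      exact this.symm
    · rw [Equiv.Perm.inv_eq_iff_eq]
      exact (h2 x hx).symm

/-- `D` is a union of cells (points with different codes `c` and the same number `q`), and all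
permutations of `D` which preserve the codes and the cells are automorphisms of `M`, everything
outside `D` being fixed -/
def HCl (M : Str a) (D : Set ℕ) : Prop :=
  ∃ (m : ℕ) (c q : ℕ → ℕ), (∀ y ∈ D, c y < m) ∧
    (∀ y ∈ D, ∀ y' ∈ D, c y = c y' → q y = q y' → y = y') ∧
    ∀ g : Equiv.Perm ℕ, (∀ y, y ∉ D → g y = y) → (∀ y ∈ D, c (g y) = c y) →
      (∀ y ∈ D, ∀ y' ∈ D, (q y = q y' ↔ q (g y) = q (g y'))) → g ∈ Au M D

/-- a family of cells, with admissible matchings, which is recognised at level `ω 3` over `E` -/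
structure Fy (M : Str a) (E : Set ℕ) (C : Set (Finset ℕ)) (B : Pos → Prop) : Prop where
  ne : ∀ S ∈ C, S.Nonempty
  reco : ∀ S ∈ C, ∀ (S' : Finset ℕ) (p : Pos), BF M univ M univ (ω + ω + ω) p → idOn E ⊆ p →
    Mt p (S : Set ℕ) (S' : Set ℕ) → S' ∈ C
  lab : ∀ S ∈ C, ∀ S' ∈ C, ∀ p : Pos, BF M univ M univ (ω + ω + ω) p → idOn E ⊆ p →
    Mt p (S : Set ℕ) (S' : Set ℕ) → B {q | q ∈ p ∧ q.1 ∈ S ∧ q.2 ∈ S'}
  hom : ∀ S ∈ C, ∀ S' ∈ C, ∃ b : Pos, MtS b S S' ∧ B b
  comp : ∀ S ∈ C, ∀ S' ∈ C, ∀ S'' ∈ C, ∀ b b' : Pos, MtS b S S' → MtS b' S' S'' →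
    B b → B b' → B (pcomp b b')

/-- The set `D` is the union of finitely many families of symmetric cells: all cells of a family can
be permuted arbitrarily, independently of each other. -/
structure SR (M : Str a) (E D : Set ℕ) {s : ℕ} (Y : Fin s → Set (Finset ℕ))
    (BY : Fin s → Pos → Prop) : Prop where
  fy : ∀ j, Fy M E (Y j) (BY j)
  sub : ∀ j, ∀ S ∈ Y j, ∀ x ∈ S, x ∈ D
  cov : ∀ x ∈ D, ∃ j, ∃ S ∈ Y j, x ∈ S
  dj : ∀ i j S S', S ∈ Y i → S' ∈ Y j → (∃ x, x ∈ S ∧ x ∈ S') → i = j ∧ S = S'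
  free : ∀ (I : Type) (j : I → Fin s) (S S' : I → Finset ℕ) (b : I → Pos), Finite I →
    (∀ i, S i ∈ Y (j i) ∧ S' i ∈ Y (j i) ∧ MtS (b i) (S i) (S' i) ∧ BY (j i) (b i)) →
    (∀ i i', i ≠ i' → S i ≠ S i') → (∀ i i', i ≠ i' → S' i ≠ S' i') →
    PI M M (idOn E ∪ ⋃ i, b i)

/-- the colour of a cell: all colourings of the cells of the family obtained from the colouring of the
cell by admissible matchings -/
def colS (M : Str a) (C : Set (Finset ℕ)) (B : Pos → Prop) (S : Finset ℕ) :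
    Set (Finset ℕ × (ℕ → ℕ → Bool)) :=
  {w | w.1 ∈ C ∧ ∃ b : Pos, MtS b S w.1 ∧ B b ∧ ∀ q ∈ b, w.2 q.2 = pc M q.1}

/-- the levels -/
noncomputable def lev3 (κ : Ordinal.{0}) : Ordinal.{0} := (ω + ω + ω) + ω * κ

end Pool.H22.CO
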