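import Pool.Agent.H22.CO.Fin
import Pool.Agent.H17.TD.Ft
import Pool.Agent.H17.HS.Final

/-!
# Classes of structures with few substructures, the unary relations being forgotten
-/

set_option autoImplicit false

namespace Pool.H22.CO

open Pool.H22.VC (Col Wild IsoOn)
open Pool.H62.VT (Str)
open Function Set Pool.H17.HS Pool.H22.VN Pool.H5.AB

variable {r : ℕ} {a : ℕ → ℕ}

theorem sub_nu (M : Str a) {f : ℕ → ℕ} (hf : Injective f) : sub (nu M) f = subn M f := by
  funext n t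
  show nu M n (fun i => f (t i)) = subn M f n t
  unfold subn
  by_cases h : ∃ i j, t i ≠ t j
  · have h1 : ∃ i j, f (t i) ≠ f (t j) := by
      obtain ⟨i, j, h2⟩ := h
      exact ⟨i, j, fun h3 => h2 (hf h3)⟩
    rw [nu_of_ne h1]
    simp [h]
  · have h1 : ∀ i j, f (t i) = f (t j) := by
      push Not at h
      intro i j
      rw [h i j]
    rw [nu_of_eq h1]
    simp [h]

/-- The dichotomy for analytic sets all of whose members lie hereditarily in the class `K` or have few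
substructures, without their unary relations; `r` bounds the arities. -/
theorem final_herC (har : ∀ n, a n ≤ r) (hr : 2 ≤ r)
    (K A : Set (Str a)) (hA : A ⊆ K) (hK : MeasureTheory.AnalyticSet A)
    (hx : ∀ x ∈ A, Few x ∨ ∃ F : Finset ℕ,
      ∀ f : ℕ → ℕ, Injective f → (∀ i ∈ F, i ∈ range f) → sub x f ∈ K) :
    (∃ C : Set (Str a), C.Countable ∧ ∀ x ∈ A, ∃ c ∈ C, ∃ σ, IsoV σ x c) ∨
      (∃ P : Set (Str a), P.Nonempty ∧ Perfect P ∧ P ⊆ K ∧
        ∀ x ∈ P, ∀ y ∈ P, (∃ σ, IsoV σ x y) → x = y) := by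
  by_cases hp : ∃ P : Set (Str a), P.Nonempty ∧ Perfect P ∧ P ⊆ K ∧
        ∀ x ∈ P, ∀ y ∈ P, (∃ σ, IsoV σ x y) → x = y
  · exact Or.inr hp
  · left
    have hw : ∀ M ∈ A, ¬ Wild (cod r (nu M)) univ := by
      intro x hxA hw
      rcases hx x hxA with ⟨F, hF⟩ | ⟨F, hF⟩
      · obtain ⟨P, h1, h2, h3, h4⟩ := Pool.H17.TD.wild_perf (nu x) hw F
        refine hF ⟨P, h1, h2, fun y hy => ?_, h4⟩
        obtain ⟨f, hf1, hf2, rfl⟩ := h3 y hy
        exact ⟨f, hf1, hf2, sub_nu x hf1⟩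
      · obtain ⟨P, h1, h2, h3, h4⟩ := Pool.H17.TD.wild_perf x (wild_of_nu hw) F
        refine hp ⟨P, h1, h2, fun y hy => ?_, h4⟩
        obtain ⟨f, hf1, hf2, rfl⟩ := h3 y hy
        exact hF f hf1 hf2
    exact mainC_countable har hr A hK (Pool.H17.TD.noPerf_of hA hp) hw

end Pool.H22.CO
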