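import Pool.Agent.H22.CO.Ref

/-!
# Finitely many reference cells for the symmetric part
-/

set_option autoImplicit false

namespace Pool.H22.CO

open Set Function Ordinal Pool.H62.VT Pool.H5.AA Pool.H22.SY

variable {a : ℕ → ℕ} {M : Str a} {D : Set ℕ}

/-- The symmetric part of a structure: `z j` are enumerations of reference cells, the finite set `X`
contains them and the points of `D` in no cell. -/
structure SQ (M : Str a) (D X : Set ℕ) {s : ℕ} (ms : Fin s → ℕ) (z : ∀ j, Fin (ms j) → ℕ) :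
    Prop where
  fin : X.Finite
  sub : X ⊆ D
  pos : ∀ j, 0 < ms j
  cell : ∀ j, IsCell (Au M D) (Finset.univ.image (z j))
  zinj : ∀ j, Injective (z j)
  zX : ∀ j d, z j d ∈ X
  out : ∀ j q, AsQ M D (z j) q → ∀ d, q d ∉ X
  cov : ∀ x ∈ D, x ∉ X → ∃ (j : Fin s) (q : Fin (ms j) → ℕ) (d : Fin (ms j)),
    AsQ M D (z j) q ∧ q d = x
  dj : ∀ i j q q', AsQ M D (z i) q → AsQ M D (z j) q' → (∃ d d', q d = q' d') →
    i = j ∧ range q = range q'
  inf : ∀ (j : Fin s) (F : Set ℕ), F.Finite → ∃ q, AsQ M D (z j) q ∧ ∀ d, q d ∉ F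
  free : ∀ (I : Type) (j : I → Fin s) (q q' : ∀ i, Fin (ms (j i)) → ℕ), Finite I →
    (∀ i, AsQ M D (z (j i)) (q i)) → (∀ i, AsQ M D (z (j i)) (q' i)) →
    (∀ i i', i ≠ i' → range (q i) ≠ range (q i')) →
    (∀ i i', i ≠ i' → range (q' i) ≠ range (q' i')) →
    ∃ g ∈ Au M D, (∀ x ∈ X, g x = x) ∧ ∀ i d, g (q i d) = q' i d

theorem coe_image_univ {m : ℕ} (q : Fin m → ℕ) :
    ((Finset.univ.image q : Finset ℕ) : Set ℕ) = range q := by
  ext x
  simp

/-- A cellular set is composed of symmetric cells and a finite set. -/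
theorem sq_of (h : HCl M D) : ∃ (X : Set ℕ) (s : ℕ) (ms : Fin s → ℕ) (z : ∀ j, Fin (ms j) → ℕ),
    SQ M D X ms z := by
  classical
  set G := Au M D with hG
  have hcl : Clo G := au_clo M D
  obtain ⟨m, cc, q, h1, h2, h3⟩ := h
  obtain ⟨⟨R, hRf, hR⟩, hsub, s, T, hT1, hT2, hT3⟩ := main hcl (fun g hg x hx => hg.2 x hx)
    h1 h2 h3
  obtain ⟨X0, hX0⟩ : ∃ X0 : Set ℕ, X0 = {x | x ∈ D ∧ ∀ U, IsCell G U → x ∉ U} := ⟨_, rfl⟩
  obtain ⟨X, hX⟩ : ∃ X : Set ℕ, X = X0 ∪ ⋃ j, (T j : Set ℕ) := ⟨_, rfl⟩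
  have hX0f : X0.Finite := by
    refine hRf.subset fun x hx => ?_
    rw [hX0] at hx
    by_contra hcon
    obtain ⟨S, k1, k2⟩ := hR x hx.1 hcon
    exact hx.2 S k1 k2
  have hXf : X.Finite := by
    rw [hX]
    exact hX0f.union (finite_iUnion fun j => (T j).finite_toSet)
  have hXD : X ⊆ D := by
    rw [hX]
    rintro x (hx | hx)
    · rw [hX0] at hx
      exact hx.1
    · obtain ⟨j, hj⟩ := mem_iUnion.1 hx
      exact hsub _ (hT1 j) x hj
  have hTX : ∀ j, ∀ x ∈ T j, x ∈ X := fun j x hx => by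
    rw [hX]
    exact Or.inr (mem_iUnion.2 ⟨j, hx⟩)
  -- enumerations of the reference cells
  obtain ⟨z, hzi, hzT⟩ : ∃ z : ∀ j, Fin (T j).card → ℕ, (∀ j, Injective (z j)) ∧
      ∀ j, Finset.univ.image (z j) = T j := by
    refine ⟨fun j d => ((T j).equivFin.symm d : ℕ), fun j d d' h4 => ?_, fun j => ?_⟩
    · exact (T j).equivFin.symm.injective (Subtype.ext h4)
    · ext x
      simp only [Finset.mem_image, Finset.mem_univ, true_and]
      constructor
      · rintro ⟨d, rfl⟩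
        exact ((T j).equivFin.symm d).2
      · intro hx
        exact ⟨(T j).equivFin ⟨x, hx⟩, by simp⟩
  have hzD : ∀ j d, z j d ∈ D := fun j d => hsub _ (hT1 j) _ (by
    rw [← hzT j]; exact Finset.mem_image_of_mem _ (Finset.mem_univ d))
  have hzX : ∀ j d, z j d ∈ X := fun j d => hTX j _ (by
    rw [← hzT j]; exact Finset.mem_image_of_mem _ (Finset.mem_univ d))
  -- admissible enumerations
  have hA : ∀ j q, AsQ M D (z j) q → ∃ k ∈ G, Loc k (T j) (Finset.univ.image q) ∧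
      (∀ d, k (z j d) = q d) ∧ IsCell G (Finset.univ.image q) := by
    intro j q hq
    obtain ⟨k, hk, hl, hkz⟩ := swap_of_asq (hzi j) (hzD j) hq
    rw [hzT j] at hl
    exact ⟨k, hk, hl, hkz, hl.1 ▸ (hT1 j).image hk⟩
  have hB : ∀ j S, (∃ g ∈ G, Loc g S (T j)) → IsCell G S → S ≠ T j →
      ∃ q, AsQ M D (z j) q ∧ Finset.univ.image q = S := by
    rintro j S ⟨g, hg, hl⟩ hS hne
    have hl2 := hl.inv
    rw [← hzT j] at hl2
    refine ⟨_, asq_of_loc (hzi j) (by rw [hzT j]; exact hT1 j) (fun x hx => hsub S hS x hx)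
      (G.inv_mem hg) hl2 (by rw [hzT j]; exact hne), ?_⟩
    rw [← hl2.1, Finset.image_image]
    rfl
  have hne : ∀ j q, AsQ M D (z j) q → Finset.univ.image q ≠ T j := by
    intro j q hq h4
    have hpos : (T j).Nonempty := (hT1 j).1
    obtain ⟨x, hx⟩ := hpos
    have hx1 : x ∈ Finset.univ.image q := by rw [h4]; exact hx
    have hx2 : x ∈ Finset.univ.image (z j) := by rw [hzT j]; exact hx
    obtain ⟨d, -, hd⟩ := Finset.mem_image.1 hx1
    obtain ⟨d', -, hd'⟩ := Finset.mem_image.1 hx2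
    exact hq.2.2.1 d d' (hd.trans hd'.symm)
  have hout : ∀ j q, AsQ M D (z j) q → ∀ d, q d ∉ X := by
    intro j q hq d hd
    obtain ⟨k, hk, hl, hkz, hc⟩ := hA j q hq
    have hqd : q d ∈ Finset.univ.image q := Finset.mem_image_of_mem q (Finset.mem_univ d)
    rw [hX] at hd
    rcases hd with hd | hd
    · rw [hX0] at hd
      exact hd.2 _ hc hqd
    · obtain ⟨j', hj'⟩ := mem_iUnion.1 hd
      have e1 := hc.eq_of_mem hcl (hT1 j') hqd hj'
      rw [e1] at hl
      have e2 := hT3 j j' ⟨k, hk, hl⟩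
      subst e2
      exact hne j q hq e1
  have hpos : ∀ j, 0 < (T j).card := fun j => Finset.card_pos.2 (hT1 j).1
  refine ⟨X, s, fun j => (T j).card, z, ⟨hXf, hXD, hpos, fun j => by rw [hzT j]; exact hT1 j, hzi, hzX, hout, ?_, ?_, ?_, ?_⟩⟩
  · intro x hxD hxX
    have h5 : ∃ S, IsCell G S ∧ x ∈ S := by
      by_contra hcon
      push Not at hcon
      apply hxX
      rw [hX, hX0]
      exact Or.inl ⟨hxD, hcon⟩
    obtain ⟨S, hSc, hxS⟩ := h5
    obtain ⟨j, g, hg, hl⟩ := hT2 S hSc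
    obtain ⟨q, hq, hqS⟩ := hB j S ⟨g, hg, hl⟩ hSc (fun h6 => hxX (hTX j x (h6 ▸ hxS)))
    rw [← hqS] at hxS
    obtain ⟨d, -, hd⟩ := Finset.mem_image.1 hxS
    exact ⟨j, q, d, hq, hd⟩
  · rintro i j q q' hq hq' ⟨d, d', hdd⟩
    obtain ⟨k, hk, hl, hkz, hc⟩ := hA i q hq
    obtain ⟨k', hk', hl', hkz', hc'⟩ := hA j q' hq'
    have e1 := hc.eq_of_mem hcl hc' (Finset.mem_image_of_mem q (Finset.mem_univ d))
      (hdd ▸ Finset.mem_image_of_mem q' (Finset.mem_univ d'))
    rw [← e1] at hl'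
    obtain ⟨g, hg, hgl, -⟩ := hl.comp hcl (hT1 i) hk (G.inv_mem hk') hl'.inv
    refine ⟨hT3 i j ⟨g, hg, hgl⟩, ?_⟩
    rw [← coe_image_univ, ← coe_image_univ, e1]
  · intro j F hF
    obtain ⟨e, he, hs, h4⟩ := (hT1 j).2.1 (hF.toFinset ∪ T j)
    have hl := hs.loc
    have hSc : IsCell G ((T j).image e) := (hT1 j).image he
    obtain ⟨q, hq, hqS⟩ := hB j _ ⟨_, G.inv_mem he, hl.inv⟩ hSc (by
      intro h5
      obtain ⟨x, hx⟩ := (hT1 j).1
      have h6 : e x ∈ (T j).image e := Finset.mem_image_of_mem e hx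
      rw [h5] at h6
      exact h4 x hx (Finset.mem_union_right _ h6))
    refine ⟨q, hq, fun d hd => ?_⟩
    have h5 : q d ∈ (T j).image e := hqS ▸ Finset.mem_image_of_mem q (Finset.mem_univ d)
    obtain ⟨x, hx, h6⟩ := Finset.mem_image.1 h5
    exact h4 x hx (Finset.mem_union_left _ (hF.mem_toFinset.2 (by rw [h6]; exact hd)))
  · intro I j q q' hI hq hq' hne1 hne2
    have hfin : Fintype I := Fintype.ofFinite I
    have hex : ∀ i, ∃ g ∈ G, Loc g (Finset.univ.image (q i)) (Finset.univ.image (q' i)) ∧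
        (∀ d, g (q i d) = q' i d) := by
      intro i
      obtain ⟨k, hk, hl, hkz, hc⟩ := hA _ _ (hq i)
      obtain ⟨k', hk', hl', hkz', hc'⟩ := hA _ _ (hq' i)
      obtain ⟨g, hg, hgl, hgx⟩ := hl.inv.comp hcl hc (G.inv_mem hk) hk' hl'
      refine ⟨g, hg, hgl, fun d => ?_⟩
      rw [hgx _ (Finset.mem_image_of_mem _ (Finset.mem_univ d)), ← hkz d, p2, hkz']
    choose g hg hgl hgq using hex
    have hcell : ∀ i, IsCell G (Finset.univ.image (q i)) := fun i => (hA _ _ (hq i)).choose_spec.2.2.2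
    have hcell' : ∀ i, IsCell G (Finset.univ.image (q' i)) := fun i =>
      (hA _ _ (hq' i)).choose_spec.2.2.2
    have hinj : ∀ i i', Finset.univ.image (q i) = Finset.univ.image (q i') → i = i' :=
      fun i i' h5 => by
        by_contra hcon
        refine hne1 i i' hcon ?_
        rw [← coe_image_univ, ← coe_image_univ, h5]
    have hinj' : ∀ i i', Finset.univ.image (q' i) = Finset.univ.image (q' i') → i = i' :=
      fun i i' h5 => by
        by_contra hcon
        refine hne2 i i' hcon ?_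
        rw [← coe_image_univ, ← coe_image_univ, h5]
    have hnT : ∀ i j', AsQ M D (z (j i)) (q i) → Finset.univ.image (q i) ≠ T j' := by
      intro i j' hq5 h5
      obtain ⟨k, hk, hl, hkz, hc⟩ := hA _ _ hq5
      rw [h5] at hl
      have e2 := hT3 _ _ ⟨k, hk, hl⟩
      rw [← e2] at h5
      exact hne _ _ hq5 h5
    have hnT' : ∀ i j', AsQ M D (z (j i)) (q' i) → Finset.univ.image (q' i) ≠ T j' := by
      intro i j' hq5 h5
      obtain ⟨k, hk, hl, hkz, hc⟩ := hA _ _ hq5
      rw [h5] at hl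
      have e2 := hT3 _ _ ⟨k, hk, hl⟩
      rw [← e2] at h5
      exact hne _ _ hq5 h5
    obtain ⟨P, hP, -, hPx, hPf⟩ := free' (ι := I ⊕ Fin s) hcl Finset.univ
      (Sum.elim (fun i => Finset.univ.image (q i)) T)
      (Sum.elim (fun i => Finset.univ.image (q' i)) T) (Sum.elim g fun _ => 1)
      (by
        rintro (i | i) -
        · exact hcell i
        · exact hT1 i)
      (by
        rintro (i | i) -
        · exact hg i
        · exact G.one_mem)
      (by
        rintro (i | i) -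
        · exact hgl i
        · exact Loc.one)
      (by
        rintro (i | i) - (i' | i') - h5
        · exact congrArg Sum.inl (hinj _ _ h5)
        · exact absurd h5 (hnT i i' (hq i))
        · exact absurd h5.symm (hnT i' i (hq i'))
        · have h6 : T i = T i' := h5
          exact congrArg Sum.inr (hT3 _ _ ⟨1, G.one_mem, by rw [h6]; exact Loc.one⟩))
      (by
        rintro (i | i) - (i' | i') - h5
        · exact congrArg Sum.inl (hinj' _ _ h5)
        · exact absurd h5 (hnT' i i' (hq' i))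
        · exact absurd h5.symm (hnT' i' i (hq' i'))
        · have h6 : T i = T i' := h5
          exact congrArg Sum.inr (hT3 _ _ ⟨1, G.one_mem, by rw [h6]; exact Loc.one⟩))
    refine ⟨P, hP, fun x hx => ?_, fun i d => ?_⟩
    · rw [hX] at hx
      rcases hx with hx | hx
      · rw [hX0] at hx
        exact hPf _ hx.2
      · obtain ⟨i, hi⟩ := mem_iUnion.1 hx
        exact hPx (Sum.inr i) (Finset.mem_univ _) _ hi
    · have h5 := hPx (Sum.inl i) (Finset.mem_univ _) (q i d)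
        (Finset.mem_image_of_mem _ (Finset.mem_univ d))
      rw [h5]
      exact hgq i d

end Pool.H22.CO
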