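import Pool.Agent.H22.CO.Col
import Pool.Agent.H5.AA.Chn

/-!
# Chains of cells with colours
-/

set_option autoImplicit false

namespace Pool.H22.CO

open Set Ordinal Pool.H62.VT Pool.H5.AA Pool.H5.HA Pool.H22.SY

variable {a : ℕ → ℕ} {M N M0 : Str a} {E : Set ℕ} {c : ℕ} {C : Fin c → Set (Finset ℕ)}
  {lt : Fin c → Finset ℕ → Finset ℕ → Prop} {B : Fin c → Pos → Prop}

/-- the colours of the cells -/
abbrev CCol : Type := Set (Finset ℕ × (ℕ → ℕ → Bool))

theorem lev3_step {ι κ : Ordinal.{0}} (h : ι < κ) : lev3 ι + ω ≤ lev3 κ := by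
  unfold lev3
  rw [add_assoc, ← mul_add_one]
  gcongr
  exact Order.add_one_le_of_lt h

theorem lev3_ge (κ : Ordinal.{0}) : ω + ω + ω ≤ lev3 κ := le_self_add

/-- the cells between given cells, left -/
def XA (C : Set (Finset ℕ)) (lt : Finset ℕ → Finset ℕ → Prop) (P Q : Set (Finset ℕ × Finset ℕ)) :
    Set (Pf C) :=
  {z | (∀ r ∈ P, lt r.1 z.1) ∧ ∀ r ∈ Q, lt z.1 r.1}

/-- the cells between given cells, right -/
def XB (C : Set (Finset ℕ)) (lt : Finset ℕ → Finset ℕ → Prop) (P Q : Set (Finset ℕ × Finset ℕ)) :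
    Set (Pf C) :=
  {z | (∀ r ∈ P, lt r.2 z.1) ∧ ∀ r ∈ Q, lt z.1 r.2}

theorem ord_iff (hS : ST M0 E C lt B) {j : Fin c} {S T S' T' : Finset ℕ} {p : Pos}
    (hB : BF M0 univ M0 univ (ω + ω + ω) p) (hE : idOn E ⊆ p) (hSC : S ∈ C j) (hTC : T ∈ C j)
    (hm : Mt p (S : Set ℕ) (S' : Set ℕ)) (hm' : Mt p (T : Set ℕ) (T' : Set ℕ)) :
    lt j S' T' ↔ lt j S T := by
  have hS' := hS.reco j S hSC S' p (hB.level w3) hE hm
  have hT' := hS.reco j T hTC T' p (hB.level w3) hE hm'
  exact ⟨fun h => hS.ord j S' hS' T' hT' S T (pinv p) (hB.symm.level w3) (id_pinv hE)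
    (mt_pinv hm) (mt_pinv hm') h, fun h => hS.ord j S hSC T hTC S' T' p (hB.level w3) hE hm hm' h⟩

theorem E_col (hS : ST M0 E C lt B) (hM : nu M = M0) (hN : nu N = M0) (j : Fin c)
    (κ : Ordinal.{0}) :
    letI := ordC (C j) (lt j) (hS.irr j) (hS.tr j) (hS.tot j)
    ∀ (q : Pos) (P Q : Set (Finset ℕ × Finset ℕ)), idOn E ⊆ q →
      (∀ r ∈ P ∪ Q, r.1 ∈ C j ∧ Mt q (r.1 : Set ℕ) (r.2 : Set ℕ)) →
      BF M univ N univ (lev3 κ) q →
      Pool.H5.HA.E (fun z : Pf (C j) => (colS M (C j) (B j) z.val : CCol))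
        (fun z : Pf (C j) => (colS N (C j) (B j) z.val : CCol)) κ
        (XA (C j) (lt j) P Q) (XB (C j) (lt j) P Q) := by
  letI := ordC (C j) (lt j) (hS.irr j) (hS.tr j) (hS.tot j)
  have hF := fy_of_st hS j
  induction κ using WellFoundedLT.induction with
  | ind κ ih =>
    intro q P Q hpq hPQ hB
    rw [E_iff]
    intro ι hι
    have hω : (ω + ω + ω : Ordinal.{0}) ≤ lev3 ι := lev3_ge ι
    have key : ∀ (x y : Pf (C j)) (q' : Pos), q ⊆ q' →
        Mt q' (x.1 : Set ℕ) (y.1 : Set ℕ) → BF M univ N univ (lev3 ι) q' →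
        (colS M (C j) (B j) x.val : CCol) = colS N (C j) (B j) y.val ∧
        (x ∈ XA (C j) (lt j) P Q ↔ y ∈ XB (C j) (lt j) P Q) ∧
        Pool.H5.HA.E (fun z : Pf (C j) => (colS M (C j) (B j) z.val : CCol))
          (fun z : Pf (C j) => (colS N (C j) (B j) z.val : CCol)) ι
          (XA (C j) (lt j) P Q ∩ Iio x) (XB (C j) (lt j) P Q ∩ Iio y) ∧
        Pool.H5.HA.E (fun z : Pf (C j) => (colS M (C j) (B j) z.val : CCol))
          (fun z : Pf (C j) => (colS N (C j) (B j) z.val : CCol)) ι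
          (XA (C j) (lt j) P Q ∩ Ioi x) (XB (C j) (lt j) P Q ∩ Ioi y) := by
      intro x y q' hqq hm h1
      have hw := h1.level hω
      have hw0 : BF M0 univ M0 univ (ω + ω + ω) q' := by
        have := bf_nu hw
        rwa [hM, hN] at this
      have hp' : idOn E ⊆ q' := hpq.trans hqq
      have hPQ' : ∀ r ∈ P ∪ Q, r.1 ∈ C j ∧ Mt q' (r.1 : Set ℕ) (r.2 : Set ℕ) := fun r hr =>
        ⟨(hPQ r hr).1, (hPQ r hr).2.mono hqq⟩
      refine ⟨(col_eq hF hM hN hw hp' x.2 hm).2, ?_, ?_, ?_⟩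
      · constructor
        · rintro ⟨h2, h3⟩
          refine ⟨fun r hr => ?_, fun r hr => ?_⟩
          · have g := hPQ' r (Or.inl hr)
            exact (ord_iff hS hw0 hp' g.1 x.2 g.2 hm).2 (h2 r hr)
          · have g := hPQ' r (Or.inr hr)
            exact (ord_iff hS hw0 hp' x.2 g.1 hm g.2).2 (h3 r hr)
        · rintro ⟨h2, h3⟩
          refine ⟨fun r hr => ?_, fun r hr => ?_⟩
          · have g := hPQ' r (Or.inl hr)
            exact (ord_iff hS hw0 hp' g.1 x.2 g.2 hm).1 (h2 r hr)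
          · have g := hPQ' r (Or.inr hr)
            exact (ord_iff hS hw0 hp' x.2 g.1 hm g.2).1 (h3 r hr)
      · have h4 := ih ι hι q' P (insert (x.1, y.1) Q) hp' (by
          rintro r (hr | rfl | hr)
          · exact hPQ' r (Or.inl hr)
          · exact ⟨x.2, hm⟩
          · exact hPQ' r (Or.inr hr)) h1
        have e1 : XA (C j) (lt j) P Q ∩ Iio x = XA (C j) (lt j) P (insert (x.1, y.1) Q) := by
          ext z
          constructor
          · rintro ⟨⟨h5, h6⟩, h7⟩
            refine ⟨h5, fun r hr => ?_⟩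
            rcases hr with rfl | hr
            · exact h7
            · exact h6 r hr
          · rintro ⟨h5, h6⟩
            exact ⟨⟨h5, fun r hr => h6 r (Or.inr hr)⟩, h6 _ (Or.inl rfl)⟩
        have e3 : XB (C j) (lt j) P Q ∩ Iio y = XB (C j) (lt j) P (insert (x.1, y.1) Q) := by
          ext z
          constructor
          · rintro ⟨⟨h5, h6⟩, h7⟩
            refine ⟨h5, fun r hr => ?_⟩
            rcases hr with rfl | hr
            · exact h7
            · exact h6 r hr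
          · rintro ⟨h5, h6⟩
            exact ⟨⟨h5, fun r hr => h6 r (Or.inr hr)⟩, h6 _ (Or.inl rfl)⟩
        rw [e1, e3]
        exact h4
      · have h4 := ih ι hι q' (insert (x.1, y.1) P) Q hp' (by
          rintro r ((rfl | hr) | hr)
          · exact ⟨x.2, hm⟩
          · exact hPQ' r (Or.inl hr)
          · exact hPQ' r (Or.inr hr)) h1
        have e1 : XA (C j) (lt j) P Q ∩ Ioi x = XA (C j) (lt j) (insert (x.1, y.1) P) Q := by
          ext z
          constructor
          · rintro ⟨⟨h5, h6⟩, h7⟩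
            refine ⟨fun r hr => ?_, h6⟩
            rcases hr with rfl | hr
            · exact h7
            · exact h5 r hr
          · rintro ⟨h5, h6⟩
            exact ⟨⟨fun r hr => h5 r (Or.inr hr), h6⟩, h5 _ (Or.inl rfl)⟩
        have e3 : XB (C j) (lt j) P Q ∩ Ioi y = XB (C j) (lt j) (insert (x.1, y.1) P) Q := by
          ext z
          constructor
          · rintro ⟨⟨h5, h6⟩, h7⟩
            refine ⟨fun r hr => ?_, h6⟩
            rcases hr with rfl | hr
            · exact h7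
            · exact h5 r hr
          · rintro ⟨h5, h6⟩
            exact ⟨⟨fun r hr => h5 r (Or.inr hr), h6⟩, h5 _ (Or.inl rfl)⟩
        rw [e1, e3]
        exact h4
    have hlw : lev3 ι ≤ lev3 ι := le_rfl
    constructor
    · intro x hx
      obtain ⟨f, hf, hm⟩ := forth_set (hB.level (lev3_step hι)) x.1
      have hm1 := hm x.1 subset_rfl
      have hy : x.1.image f ∈ C j :=
        (col_eq hF hM hN (hf.level hω) (hpq.trans subset_union_left) x.2 hm1).1
      obtain ⟨k0, k1, k2, k3⟩ := key x ⟨_, hy⟩ _ subset_union_left hm1 hf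
      exact ⟨⟨_, hy⟩, k1.1 hx, k0, k2, k3⟩
    · intro y hy
      obtain ⟨f, hf, hm⟩ := back_set' (hB.level (lev3_step hι)) y.1
      have hm1 := hm y.1 subset_rfl
      have hx : y.1.image f ∈ C j :=
        (col_eq hF hN hM (hf.level hω).symm (id_pinv (hpq.trans subset_union_left)) y.2
          (mt_pinv hm1)).1
      obtain ⟨k0, k1, k2, k3⟩ := key ⟨_, hx⟩ y _ subset_union_left hm1 hf
      exact ⟨⟨_, hx⟩, k1.2 hy, k0, k2, k3⟩

/-- The chains of cells are isomorphic, with the colours of the cells. -/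
theorem chain_col (hS : ST M0 E C lt B) (hM : nu M = M0) (hN : nu N = M0) {ρ κ : Ordinal.{0}}
    (hA : AllD CCol ρ κ) (j : Fin c) (hR : RkC (C j) (lt j) ρ)
    (hB : BF M univ N univ (lev3 κ) (idOn E)) :
    ∃ f : Finset ℕ → Finset ℕ, (∀ S ∈ C j, f S ∈ C j) ∧ (∀ S' ∈ C j, ∃ S ∈ C j, f S = S') ∧
      (∀ S ∈ C j, ∀ T ∈ C j, lt j S T → lt j (f S) (f T)) ∧
      ∀ S ∈ C j, colS M (C j) (B j) S = colS N (C j) (B j) (f S) := by
  classical
  letI := ordC (C j) (lt j) (hS.irr j) (hS.tr j) (hS.tot j)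
  rcases (C j).eq_empty_or_nonempty with he | hne
  · refine ⟨id, fun S h => h, fun S h => ⟨S, h, rfl⟩, fun S _ T _ h => h, fun S h => ?_⟩
    rw [he] at h
    exact absurd h (notMem_empty _)
  · have : Nonempty (Pf (C j)) := ⟨⟨hne.some, hne.some_mem⟩⟩
    have hE := E_col hS hM hN j κ (idOn E) ∅ ∅ subset_rfl (by simp) hB
    have e1 : XA (C j) (lt j) ∅ ∅ = Set.univ := by
      ext z
      simp [XA]
    have e3 : XB (C j) (lt j) ∅ ∅ = Set.univ := by
      ext z
      simp [XB]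
    rw [e1, e3] at hE
    obtain ⟨f, hf, hm, hc⟩ := hA (Pf (C j)) (fun z : Pf (C j) => (colS M (C j) (B j) z.val : CCol))
      Set.univ (hR (hS.irr j) (hS.tr j) (hS.tot j)) (Pf (C j))
      (fun z : Pf (C j) => (colS N (C j) (B j) z.val : CCol)) Set.univ hE
    refine ⟨fun S => if h : S ∈ C j then (f ⟨S, h⟩).1 else S, ?_, ?_, ?_, ?_⟩
    · intro S hSC
      simp only [dif_pos hSC]
      exact (f ⟨S, hSC⟩).2
    · intro S' hS'
      obtain ⟨x, -, hx⟩ := hf.surjOn (mem_univ (⟨S', hS'⟩ : Pf (C j)))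
      refine ⟨x.1, x.2, ?_⟩
      simp only [dif_pos x.2]
      exact congrArg Pf.val hx
    · intro S hSC T hTC hlt
      simp only [dif_pos hSC, dif_pos hTC]
      exact hm (mem_univ (⟨S, hSC⟩ : Pf (C j))) (mem_univ (⟨T, hTC⟩ : Pf (C j))) hlt
    · intro S hSC
      simp only [dif_pos hSC]
      exact hc ⟨S, hSC⟩ (mem_univ _)

end Pool.H22.CO
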