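import Pool.Agent.H22.CO.Rec

/-!
# The rest is a union of families of symmetric cells
-/

set_option autoImplicit false

namespace Pool.H22.CO

open Set Ordinal Pool.H62.VT Pool.H5.AA Pool.H22.SY

variable {a : ℕ → ℕ} {M : Str a} {D D' E : Set ℕ} {c : ℕ} {C : Fin c → Set (Finset ℕ)}
  {lt : Fin c → Finset ℕ → Finset ℕ → Prop} {B : Fin c → Pos → Prop}

/-- a position over `E1` matching a cell is a member of the group on it -/
theorem rec_set (hS : ST M E C lt B) {X : Set ℕ} (hX : X ⊆ D0 E C) (hf : X.Finite) {p : Pos}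
    (hB : BF M univ M univ (ω + ω + ω) p) (hE : idOn (E ∪ X) ⊆ p) {S S' : Finset ℕ}
    (hSD : ∀ x ∈ S, x ∈ D0 E C) (hm : Mt p (S : Set ℕ) (S' : Set ℕ)) :
    ∃ g ∈ Au M (D0 E C), (∀ x ∈ X, g x = x) ∧ (∀ x ∈ S, (x, g x) ∈ p) ∧ S.image g = S' := by
  classical
  set F : Finset ℕ := S ∪ hf.toFinset with hF
  have hFm : ∀ x ∈ F, ∃ y, (x, y) ∈ p := by
    intro x hx
    rcases Finset.mem_union.1 hx with h | h
    · obtain ⟨y, -, hy⟩ := hm.1 x h
      exact ⟨y, hy⟩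
    · rw [Set.Finite.mem_toFinset] at h
      exact ⟨x, hE ⟨Or.inr h, rfl⟩⟩
  have hex : ∀ x, ∃ y, x ∈ F → (x, y) ∈ p := by
    intro x
    by_cases h : x ∈ F
    · obtain ⟨y, hy⟩ := hFm x h
      exact ⟨y, fun _ => hy⟩
    · exact ⟨0, fun h' => absurd h' h⟩
  choose φ hφ using hex
  obtain ⟨g, hg, hgu⟩ := rec_total (k := F.card) (u := fun i => (F.equivFin.symm i : ℕ))
    (v := fun i => φ (F.equivFin.symm i)) hS (by
      intro i
      have h := (F.equivFin.symm i).2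
      rcases Finset.mem_union.1 h with h | h
      · exact hSD _ h
      · rw [Set.Finite.mem_toFinset] at h
        exact hX h) (hB.mono (by
      rintro q (hq | ⟨i, rfl⟩)
      · exact hE ⟨Or.inl hq.1, hq.2⟩
      · exact hφ _ (F.equivFin.symm i).2))
  have hgF : ∀ x ∈ F, g x = φ x := by
    intro x hx
    have := hgu (F.equivFin ⟨x, hx⟩)
    simpa using this
  have hSF : ∀ x ∈ S, x ∈ F := fun x hx => Finset.mem_union_left _ hx
  have hXF : ∀ x ∈ X, x ∈ F := fun x hx => Finset.mem_union_right _ ((Set.Finite.mem_toFinset _).2 hx)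
  refine ⟨g, hg, fun x hx => ?_, fun x hx => ?_, ?_⟩
  · rw [hgF x (hXF x hx)]
    exact (hB.pi.2 _ (hφ x (hXF x hx)) _ (hE ⟨Or.inr hx, rfl⟩ : (x, x) ∈ p)).1 rfl
  · rw [hgF x (hSF x hx)]
    exact hφ x (hSF x hx)
  · ext y
    rw [Finset.mem_image]
    constructor
    · rintro ⟨x, hx, rfl⟩
      obtain ⟨y, hy, hxy⟩ := hm.1 x hx
      have h1 : φ x = y := (hB.pi.2 _ (hφ x (hSF x hx)) _ hxy).1 rfl
      rw [hgF x (hSF x hx), h1]
      exact hy
    · intro hy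
      obtain ⟨x, hx, hxy⟩ := hm.2 y hy
      have h1 : φ x = y := (hB.pi.2 _ (hφ x (hSF x hx)) _ hxy).1 rfl
      exact ⟨x, hx, by rw [hgF x (hSF x hx), h1]⟩

/-- the matching of a local map -/
theorem mts_gr {g : Equiv.Perm ℕ} {S S' : Finset ℕ} (hl : Loc g S S') :
    MtS (gr g (S : Set ℕ)) S S' := by
  refine ⟨?_, ?_, ?_⟩
  · rintro q ⟨hq, hq'⟩
    exact ⟨hq, hq' ▸ hl.maps hq⟩
  · intro x hx
    exact ⟨g x, hl.maps hx, hx, rfl⟩
  · intro y hy
    have hy' : y ∈ S.image g := by rw [hl.1]; exact hy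
    obtain ⟨x, hx, rfl⟩ := Finset.mem_image.1 hy'
    exact ⟨x, hx, hx, rfl⟩

theorem gr_mts {g : Equiv.Perm ℕ} {U U' S S' : Finset ℕ} (hl : Loc g U U')
    (h : MtS (gr g (U : Set ℕ)) S S') : U = S ∧ U' = S' := by
  have h1 : U = S := by
    ext x
    constructor
    · intro hx
      exact (h.1 (x, g x) ⟨hx, rfl⟩).1
    · intro hx
      obtain ⟨y, -, hy⟩ := h.2.1 x hx
      exact hy.1
  refine ⟨h1, ?_⟩
  subst h1
  ext y
  constructor
  · intro hy
    have hy' : y ∈ U.image g := by rw [hl.1]; exact hy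
    obtain ⟨x, hx, rfl⟩ := Finset.mem_image.1 hy'
    exact (h.1 (x, g x) ⟨hx, rfl⟩).2
  · intro hy
    obtain ⟨x, -, hx⟩ := h.2.2 y hy
    have : y = g x := hx.2
    rw [this]
    exact hl.maps hx.1

/-- The rest is a union of families of symmetric cells. -/
theorem sr_of (hS : ST M E C lt B) (hD : D ⊆ D0 E C) (hf : (D0 E C \ D).Finite)
    (h : HCl M D) : ∃ E1 : Set ℕ, E ⊆ E1 ∧ ST M E1 C lt B ∧
      ∃ (s : ℕ) (Y : Fin s → Set (Finset ℕ)) (BY : Fin s → Pos → Prop),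
        SR M E1 (D0 E1 C) Y BY := by
  classical
  obtain ⟨hS0, hD0⟩ := st_mono hS diff_subset hf
  set E0 : Set ℕ := E ∪ (D0 E C \ D) with hE0
  have hD1 : D0 E0 C = D := by
    rw [hD0]
    ext x
    constructor
    · rintro ⟨h1, h2⟩
      by_contra h3
      exact h2 ⟨h1, h3⟩
    · intro h1
      exact ⟨hD h1, fun h2 => h2.2 h1⟩
  set G := Au M D with hG
  have hcl : Clo G := au_clo M D
  obtain ⟨m, cc, q, h1, h2, h3⟩ := h
  obtain ⟨⟨R, hRf, hR⟩, hsub, s, T, hT1, hT2, hT3⟩ := main hcl (fun g hg x hx => hg.2 x hx)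
    h1 h2 h3
  -- the named points
  obtain ⟨X0, hX0⟩ : ∃ X0 : Set ℕ, X0 = {x | x ∈ D ∧ ∀ U, IsCell G U → x ∉ U} := ⟨_, rfl⟩
  obtain ⟨X, hX⟩ : ∃ X : Set ℕ, X = X0 ∪ ⋃ j, (T j : Set ℕ) := ⟨_, rfl⟩
  have hX0f : X0.Finite := by
    refine hRf.subset fun x hx => ?_
    rw [hX0] at hx
    by_contra hcon
    obtain ⟨S, k1, k2⟩ := hR x hx.1 hcon
    exact hx.2 S k1 k2
  have hXf : X.Finite := by
    rw [hX]
    exact hX0f.union (finite_iUnion fun j => (T j).finite_toSet)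
  have hXD : X ⊆ D := by
    rw [hX]
    rintro x (hx | hx)
    · rw [hX0] at hx
      exact hx.1
    · obtain ⟨j, hj⟩ := mem_iUnion.1 hx
      exact hsub _ (hT1 j) x hj
  have hTX : ∀ j, ∀ x ∈ T j, x ∈ X := fun j x hx => by
    rw [hX]
    exact Or.inr (mem_iUnion.2 ⟨j, hx⟩)
  obtain ⟨hS1, hD2⟩ := st_mono hS0 (by rw [hD1]; exact hXD) hXf
  rw [hD1] at hD2
  refine ⟨E0 ∪ X, fun x hx => Or.inl (Or.inl hx), hS1, s,
    fun j => {S | IsCell G S ∧ (∃ g ∈ G, Loc g S (T j)) ∧ S ≠ T j},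
    fun j b => ∃ g ∈ G, ∃ S S', IsCell G S ∧ Loc g S S' ∧ b = gr g (S : Set ℕ), ?_⟩
  have hsubY : ∀ j, ∀ S, (IsCell G S ∧ (∃ g ∈ G, Loc g S (T j)) ∧ S ≠ T j) → ∀ x ∈ S, x ∉ X := by
    rintro j S ⟨k1, ⟨g, hg, hl⟩, k3⟩ x hx hxX
    rw [hX] at hxX
    rcases hxX with hxX | hxX
    · rw [hX0] at hxX
      exact hxX.2 S k1 hx
    · obtain ⟨j', hj'⟩ := mem_iUnion.1 hxX
      have e1 : S = T j' := k1.eq_of_mem hcl (hT1 j') hx hj'
      rw [e1] at hl
      have e2 := hT3 j' j ⟨g, hg, hl⟩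
      rw [← e2] at k3
      exact k3 e1
  -- a position matching a cell
  have hrec : ∀ j, ∀ S, (IsCell G S ∧ (∃ g ∈ G, Loc g S (T j)) ∧ S ≠ T j) → ∀ (S' : Finset ℕ)
      (p : Pos), BF M univ M univ (ω + ω + ω) p → idOn (E0 ∪ X) ⊆ p →
      Mt p (S : Set ℕ) (S' : Set ℕ) → ∃ k ∈ G, Loc k S S' ∧ (∀ x ∈ S, (x, k x) ∈ p) ∧
        S' ≠ T j := by
    rintro j S ⟨k1, ⟨g0, hg0, hl0⟩, k3⟩ S' p hB hE hm
    obtain ⟨g, hg, hgX, hgp, himg⟩ := rec_set hS0 (by rw [hD1]; exact hXD) hXf hB hE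
      (fun x hx => by rw [hD1]; exact hsub S k1 x hx) hm
    rw [hD1] at hg
    obtain ⟨k, hk, hkl, hkx⟩ := names hcl hg (fun x hx => hgX x (hTX j x hx)) k1 hg0 hl0
    rw [himg] at hkl
    refine ⟨k, hk, hkl, fun x hx => by rw [hkx x hx]; exact hgp x hx, fun h5 => k3 ?_⟩
    ext x
    constructor
    · intro hx
      have h6 : g x ∈ T j := by
        rw [← h5, ← himg]
        exact Finset.mem_image_of_mem g hx
      have h7 := hgX _ (hTX j _ h6)
      rw [g.injective h7] at h6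
      exact h6
    · intro hx
      have h6 : x ∈ S.image g := by
        rw [himg, h5]
        exact hx
      obtain ⟨y, hy, hyx⟩ := Finset.mem_image.1 h6
      have h7 := hgX _ (hTX j _ hx)
      have : y = x := g.injective (hyx.trans h7.symm)
      exact this ▸ hy
  refine { fy := fun j => ?_, sub := ?_, cov := ?_, dj := ?_, free := ?_ }
  · refine { ne := fun S hSC => hSC.1.1, reco := ?_, lab := ?_, hom := ?_, comp := ?_ }
    · intro S hSC S' p hB hE hm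
      obtain ⟨k, hk, hkl, -, hne⟩ := hrec j S hSC S' p hB hE hm
      obtain ⟨k1, ⟨g0, hg0, hl0⟩, k3⟩ := hSC
      have hS' : IsCell G S' := hkl.1 ▸ k1.image hk
      obtain ⟨g1, hg1, hl1, -⟩ := hkl.inv.comp hcl hS' (G.inv_mem hk) hg0 hl0
      exact ⟨hS', ⟨g1, hg1, hl1⟩, hne⟩
    · intro S hSC S' hSC' p hB hE hm
      obtain ⟨k, hk, hkl, hkp, -⟩ := hrec j S hSC S' p hB hE hm
      refine ⟨k, hk, S, S', hSC.1, hkl, ?_⟩
      ext q
      constructor
      · rintro ⟨h5, h6, h7⟩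
        exact ⟨h6, ((hB.pi.2 _ h5 _ (hkp _ h6)).1 rfl)⟩
      · rintro ⟨h5, h6⟩
        have h7 : q = (q.1, k q.1) := Prod.ext rfl h6
        refine ⟨?_, h5, ?_⟩
        · rw [h7]
          exact hkp _ h5
        · rw [h6]
          exact hkl.maps h5
    · rintro S ⟨k1, ⟨g0, hg0, hl0⟩, -⟩ S' ⟨k1', ⟨g1, hg1, hl1⟩, -⟩
      obtain ⟨k, hk, hkl, -⟩ := hl0.comp hcl k1 hg0 (G.inv_mem hg1) hl1.inv
      exact ⟨gr k (S : Set ℕ), mts_gr hkl, k, hk, S, S', k1, hkl, rfl⟩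
    · rintro S hSC S' hSC' S'' hSC'' b b' hb hb' ⟨g, hg, U, U', hU, hlU, rfl⟩
        ⟨g', hg', V, V', hV, hlV, rfl⟩
      obtain ⟨rfl, rfl⟩ := gr_mts hlU hb
      obtain ⟨rfl, rfl⟩ := gr_mts hlV hb'
      obtain ⟨k, hk, hkl, hkx⟩ := hlU.comp hcl hU hg hg' hlV
      refine ⟨k, hk, U, V', hU, hkl, ?_⟩
      ext r
      constructor
      · rintro ⟨y, ⟨h5, h6⟩, ⟨h7, h8⟩⟩
        simp only at h5 h6 h7 h8
        refine ⟨h5, ?_⟩
        rw [h8, h6]
        exact (hkx _ h5).symm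
      · rintro ⟨h5, h6⟩
        refine ⟨g r.1, ⟨h5, rfl⟩, ⟨hlU.maps h5, ?_⟩⟩
        show r.2 = g' (g r.1)
        rw [h6]
        exact hkx _ h5
  · intro j S hSC x hx
    rw [hD2]
    exact ⟨hsub S hSC.1 x hx, hsubY j S hSC x hx⟩
  · intro x hx
    rw [hD2] at hx
    have h5 : ∃ S, IsCell G S ∧ x ∈ S := by
      by_contra hcon
      push Not at hcon
      apply hx.2
      rw [hX, hX0]
      exact Or.inl ⟨hx.1, hcon⟩
    obtain ⟨S, hSc, hxS⟩ := h5
    obtain ⟨j, g, hg, hl⟩ := hT2 S hSc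
    refine ⟨j, S, ⟨hSc, ⟨g, hg, hl⟩, ?_⟩, hxS⟩
    rintro rfl
    exact hx.2 (hTX j x hxS)
  · rintro i j S S' ⟨k1, ⟨g, hg, hl⟩, -⟩ ⟨k1', ⟨g', hg', hl'⟩, -⟩ ⟨x, hx, hx'⟩
    have e1 : S = S' := k1.eq_of_mem hcl k1' hx hx'
    subst e1
    obtain ⟨k, hk, hkl, -⟩ := hl.inv.comp hcl (hT1 i) (G.inv_mem hg) hg' hl'
    exact ⟨hT3 i j ⟨k, hk, hkl⟩, rfl⟩
  · intro I j S S' b hI hb hne hne'
    have hfin : Fintype I := Fintype.ofFinite I
    have hex : ∀ i, ∃ g ∈ G, Loc g (S i) (S' i) ∧ b i = gr g (S i : Set ℕ) := by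
      intro i
      obtain ⟨k1, k2, k3, ⟨g, hg, U, U', hU, hlU, hbe⟩⟩ := hb i
      rw [hbe] at k3
      obtain ⟨rfl, rfl⟩ := gr_mts hlU k3
      exact ⟨g, hg, hlU, hbe⟩
    choose g hg hgl hgb using hex
    have hinj : ∀ i i', S i = S i' → i = i' := fun i i' h5 => by
      by_contra hcon
      exact hne i i' hcon h5
    have hinj' : ∀ i i', S' i = S' i' → i = i' := fun i i' h5 => by
      by_contra hcon
      exact hne' i i' hcon h5
    obtain ⟨P, hP, -, hPx, hPf⟩ := free' (ι := I ⊕ Fin s) hcl Finset.univ (Sum.elim S T)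
      (Sum.elim S' T) (Sum.elim g fun _ => 1)
      (by
        rintro (i | i) -
        · exact (hb i).1.1
        · exact hT1 i)
      (by
        rintro (i | i) -
        · exact hg i
        · exact G.one_mem)
      (by
        rintro (i | i) -
        · exact hgl i
        · exact Loc.one)
      (by
        rintro (i | i) - (i' | i') - h5
        · exact congrArg Sum.inl (hinj _ _ h5)
        · exfalso
          obtain ⟨k1, ⟨g1, hg1, hl1⟩, k3⟩ := (hb i).1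
          have h6 : S i = T i' := h5
          rw [h6] at hl1
          have e2 := hT3 i' (j i) ⟨g1, hg1, hl1⟩
          rw [← e2] at k3
          exact k3 h6
        · exfalso
          obtain ⟨k1, ⟨g1, hg1, hl1⟩, k3⟩ := (hb i').1
          have h6 : S i' = T i := h5.symm
          rw [h6] at hl1
          have e2 := hT3 i (j i') ⟨g1, hg1, hl1⟩
          rw [← e2] at k3
          exact k3 h6
        · have h6 : T i = T i' := h5
          exact congrArg Sum.inr (hT3 _ _ ⟨1, G.one_mem, by rw [h6]; exact Loc.one⟩))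
      (by
        rintro (i | i) - (i' | i') - h5
        · exact congrArg Sum.inl (hinj' _ _ h5)
        · exfalso
          obtain ⟨k1, ⟨g1, hg1, hl1⟩, k3⟩ := (hb i).2.1
          have h6 : S' i = T i' := h5
          rw [h6] at hl1
          have e2 := hT3 i' (j i) ⟨g1, hg1, hl1⟩
          rw [← e2] at k3
          exact k3 h6
        · exfalso
          obtain ⟨k1, ⟨g1, hg1, hl1⟩, k3⟩ := (hb i').2.1
          have h6 : S' i' = T i := h5.symm
          rw [h6] at hl1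
          have e2 := hT3 i (j i') ⟨g1, hg1, hl1⟩
          rw [← e2] at k3
          exact k3 h6
        · have h6 : T i = T i' := h5
          exact congrArg Sum.inr (hT3 _ _ ⟨1, G.one_mem, by rw [h6]; exact Loc.one⟩))
    refine (pi_of_au hP).mono ?_
    rintro r (⟨hr, hr'⟩ | hr)
    · refine ⟨mem_univ _, ?_⟩
      rw [← hr']
      rcases hr with hr | hr
      · refine (hP.2 _ ?_).symm
        rw [← hD1]
        exact fun h6 => h6.1 hr
      · rw [hX] at hr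
        rcases hr with hr | hr
        · rw [hX0] at hr
          exact (hPf _ hr.2).symm
        · obtain ⟨i, hi⟩ := mem_iUnion.1 hr
          exact (hPx (Sum.inr i) (Finset.mem_univ _) _ hi).symm
    · obtain ⟨i, hi⟩ := mem_iUnion.1 hr
      rw [hgb i] at hi
      refine ⟨mem_univ _, ?_⟩
      rw [hi.2]
      exact (hPx (Sum.inl i) (Finset.mem_univ _) _ hi.1).symm

end Pool.H22.CO
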