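import Pool.Agent.H22.CO.Nu
import Pool.Agent.H22.CO.Sr

/-!
# The colours of cells
-/

set_option autoImplicit false

namespace Pool.H22.CO

open Set Ordinal Pool.H62.VT Pool.H5.AA Pool.H22.SY

variable {a : ℕ → ℕ} {M N M0 : Str a} {D D' E : Set ℕ} {c : ℕ} {C : Fin c → Set (Finset ℕ)}
  {lt : Fin c → Finset ℕ → Finset ℕ → Prop} {B : Fin c → Pos → Prop} {Y : Set (Finset ℕ)}
  {BY : Pos → Prop} {S S' : Finset ℕ} {p : Pos}

theorem w3 : (ω : Ordinal.{0}) ≤ ω + ω + ω := le_self_add.trans le_self_add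

/-- the chain families are recognised families -/
theorem fy_of_st (hS : ST M E C lt B) (j : Fin c) : Fy M E (C j) (B j) where
  ne := hS.ne j
  reco := fun S hSC S' p hB hE hm => hS.reco j S hSC S' p (hB.level w3) hE hm
  lab := fun S hSC S' hSC' p hB hE hm => hS.lab j S hSC S' hSC' p (hB.level w3) hE hm
  hom := hS.hom j
  comp := hS.comp j

/-- the identity of a cell is admissible -/
theorem Fy.id (hF : Fy M E Y BY) (h : S ∈ Y) : BY (idOn (S : Set ℕ)) := by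
  have h1 := hF.lab S h S h (idOn univ) (BF_refl M univ univ (ω + ω + ω))
    (fun q hq => ⟨mem_univ _, hq.2⟩) ⟨fun x hx => ⟨x, hx, mem_univ _, rfl⟩,
      fun x hx => ⟨x, hx, mem_univ _, rfl⟩⟩
  convert h1 using 1
  ext q
  constructor
  · rintro ⟨h2, h3⟩
    exact ⟨⟨mem_univ _, h3⟩, h2, h3 ▸ h2⟩
  · rintro ⟨⟨-, h3⟩, h2, -⟩
    exact ⟨h2, h3⟩

/-- the part of a position between matched sets -/
theorem mts_of_mt (hm : Mt p (S : Set ℕ) (S' : Set ℕ)) :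
    MtS {q | q ∈ p ∧ q.1 ∈ S ∧ q.2 ∈ S'} S S' := by
  refine ⟨fun q hq => hq.2, fun x hx => ?_, fun y hy => ?_⟩
  · obtain ⟨y, hy, h⟩ := hm.1 x hx
    exact ⟨y, hy, h, hx, hy⟩
  · obtain ⟨x, hx, h⟩ := hm.2 y hy
    exact ⟨x, hx, h, hx, hy⟩

/-- composing an admissible matching with a position from the other coloured structure -/
theorem col_sub (hF : Fy M0 E Y BY) (hM : nu M = M0) (hN : nu N = M0)
    (hB : BF M univ N univ (ω + ω + ω) p) (hE : idOn E ⊆ p) (hSY : S ∈ Y) (hSY' : S' ∈ Y)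
    (hm : Mt p (S : Set ℕ) (S' : Set ℕ)) : colS N Y BY S' ⊆ colS M Y BY S := by
  have hB0 : BF M0 univ M0 univ (ω + ω + ω) p := by
    have := bf_nu hB
    rwa [hM, hN] at this
  rintro w ⟨hw, b, hb, hbB, hbc⟩
  have h1 := hF.lab S hSY S' hSY' p hB0 hE hm
  have h2 := mts_of_mt hm
  refine ⟨hw, pcomp {q | q ∈ p ∧ q.1 ∈ S ∧ q.2 ∈ S'} b, ⟨?_, ?_, ?_⟩,
    hF.comp S hSY S' hSY' w.1 hw _ _ h2 hb h1 hbB, ?_⟩
  · rintro q ⟨y, h3, h4⟩
    exact ⟨h3.2.1, (hb.1 _ h4).2⟩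
  · intro x hx
    obtain ⟨y, hy, h3⟩ := h2.2.1 x hx
    obtain ⟨z, hz, h4⟩ := hb.2.1 y hy
    exact ⟨z, hz, y, h3, h4⟩
  · intro z hz
    obtain ⟨y, hy, h4⟩ := hb.2.2 z hz
    obtain ⟨x, hx, h3⟩ := h2.2.2 y hy
    exact ⟨x, hx, y, h3, h4⟩
  · rintro q ⟨y, ⟨h3, -, -⟩, h4⟩
    have e1 := hbc _ h4
    have e2 := pc_eq hB.pi h3
    simp only at e1 e2
    rw [e1, e2]

theorem mt_pinv (h : Mt p (S : Set ℕ) (S' : Set ℕ)) : Mt (pinv p) (S' : Set ℕ) (S : Set ℕ) :=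
  ⟨h.2, h.1⟩

theorem id_pinv (h : idOn E ⊆ p) : idOn E ⊆ pinv p := by
  rintro ⟨x, y⟩ ⟨hx, hxy⟩
  simp only at hx hxy
  subst hxy
  exact h ⟨hx, rfl⟩

/-- matched cells have the same colour -/
theorem col_eq (hF : Fy M0 E Y BY) (hM : nu M = M0) (hN : nu N = M0)
    (hB : BF M univ N univ (ω + ω + ω) p) (hE : idOn E ⊆ p) (hSY : S ∈ Y)
    (hm : Mt p (S : Set ℕ) (S' : Set ℕ)) : S' ∈ Y ∧ colS M Y BY S = colS N Y BY S' := by
  have hB0 : BF M0 univ M0 univ (ω + ω + ω) p := by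
    have := bf_nu hB
    rwa [hM, hN] at this
  have hSY' := hF.reco S hSY S' p hB0 hE hm
  refine ⟨hSY', Subset.antisymm ?_ (col_sub hF hM hN hB hE hSY hSY' hm)⟩
  exact col_sub hF hN hM hB.symm (id_pinv hE) hSY' hSY (mt_pinv hm)

/-- cells of the same colour have an admissible matching which preserves the colours -/
theorem col_match (hF : Fy M0 E Y BY) (hSY : S ∈ Y)
    (h : colS M Y BY S = colS N Y BY S') :
    ∃ b : Pos, MtS b S' S ∧ BY b ∧ ∀ q ∈ b, pc N q.1 = pc M q.2 := by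
  have h1 : (S, pc M) ∈ colS M Y BY S := by
    refine ⟨hSY, idOn (S : Set ℕ), ⟨?_, ?_, ?_⟩, hF.id hSY, ?_⟩
    · exact fun q hq => ⟨hq.1, hq.2 ▸ hq.1⟩
    · exact fun x hx => ⟨x, hx, hx, rfl⟩
    · exact fun x hx => ⟨x, hx, hx, rfl⟩
    · rintro q ⟨-, hq⟩
      rw [hq]
  rw [h] at h1
  obtain ⟨-, b, hb, hbB, hbc⟩ := h1
  exact ⟨b, hb, hbB, fun q hq => (hbc q hq).symm⟩

end Pool.H22.CO
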