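import Pool.Agent.H22.CO.Main
import Pool.Agent.H5.AB.Fa4

/-!
# Analytic classes of structures which are not wild without their unary relations
-/

set_option autoImplicit false

namespace Pool.H22.CO

open Set Ordinal Pool.H62.VT Pool.H5.HA Pool.H5.AB Pool.H22.VN

variable {a : ℕ → ℕ} {r : ℕ}

/-- A wild family of the structure without its unary relations is wild. -/
theorem wild_of_nu {M : Str a}
    (h : Pool.H22.VC.Wild (cod r (nu M)) univ) : Pool.H22.VC.Wild (cod r M) univ := by
  obtain ⟨A, Ω, h1, h2, h3, h4, h5⟩ := h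
  refine ⟨A, Ω, h1, h2, h3, h4, fun s s' h => h5 s s' ?_⟩
  obtain ⟨g, hg1, hg2⟩ := h
  refine ⟨g, hg1, fun t => ?_⟩
  funext n v
  have h6 := congrFun (congrFun (hg2 t) n) v
  show nu M n (fun i => (g (t (v i)) : ℕ)) = nu M n (fun i => (t (v i) : ℕ))
  by_cases h : ∃ i j, (t (v i) : ℕ) ≠ (t (v j) : ℕ)
  · rw [nu_of_ne h, nu_of_ne]
    · exact h6
    · obtain ⟨i, j, h7⟩ := h
      exact ⟨i, j, fun h8 => h7 (congrArg Subtype.val (g.injective (Subtype.ext h8)))⟩
  · push Not at h
    rw [nu_of_eq h, nu_of_eq]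
    intro i j
    rw [Subtype.ext (h i j)]

/-- Analytic classes of structures of bounded arity which, without their unary relations, are not
wild: countably many types or a perfect set of types. -/
theorem mainC_countable (har : ∀ n, a n ≤ r) (hr : 2 ≤ r) (K : Set (Str a))
    (hK : MeasureTheory.AnalyticSet K) (hn : NoPerf K)
    (hW : ∀ M ∈ K, ¬ Pool.H22.VC.Wild (cod r (nu M)) univ) :
    ∃ C : Set (Str a), C.Countable ∧ ∀ x ∈ K, ∃ c ∈ C, ∃ σ : Equiv.Perm ℕ,
      ∀ (n : ℕ) (t : Fin (a n) → ℕ), c n (fun i => σ (t i)) = x n t :=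
  ffC_countable har hr K hK hn hW fun M hM => hasFF har hr (nu M) (hW M hM)

end Pool.H22.CO
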