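import Pool.Agent.H22.CO.Col

/-!
# Symmetric families with the same numbers of cells of each colour
-/

set_option autoImplicit false

namespace Pool.H22.CO

open Set Ordinal Pool.H62.VT Pool.H5.AA Pool.H22.SY

/-- countable sets with the same cardinalities of finite subsets -/
theorem bij_of_cards {α : Type} [Countable α] (A A' : Set α)
    (h : ∀ F : Finset α, (F : Set α) ⊆ A → ∃ F' : Finset α, (F' : Set α) ⊆ A' ∧ F'.card = F.card)
    (h' : ∀ F : Finset α, (F : Set α) ⊆ A' → ∃ F' : Finset α, (F' : Set α) ⊆ A ∧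
      F'.card = F.card) : ∃ f : α → α, BijOn f A A' := by
  classical
  have hfin : ∀ A A' : Set α, (∀ F : Finset α, (F : Set α) ⊆ A → ∃ F' : Finset α,
      (F' : Set α) ⊆ A' ∧ F'.card = F.card) → A'.Finite → A.Finite := by
    intro A A' h hA
    by_contra hcon
    obtain ⟨F, hF, hc⟩ := Set.Infinite.exists_subset_card_eq hcon (hA.toFinset.card + 1)
    obtain ⟨F', hF', hc'⟩ := h F hF
    have h1 : F' ⊆ hA.toFinset := fun x hx => (Set.Finite.mem_toFinset _).2 (hF' hx)
    have := Finset.card_le_card h1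
    omega
  have hne : Nonempty (A ≃ A') := by
    by_cases hA : A'.Finite
    · have hA2 := hfin A A' h hA
      have h1 : hA2.toFinset.card ≤ hA.toFinset.card := by
        obtain ⟨F', hF', hc'⟩ := h hA2.toFinset (by simp)
        rw [← hc']
        exact Finset.card_le_card fun x hx => (Set.Finite.mem_toFinset _).2 (hF' hx)
      have h2 : hA.toFinset.card ≤ hA2.toFinset.card := by
        obtain ⟨F', hF', hc'⟩ := h' hA.toFinset (by simp)
        rw [← hc']
        exact Finset.card_le_card fun x hx => (Set.Finite.mem_toFinset _).2 (hF' hx)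
      have e1 : hA2.toFinset.card = hA.toFinset.card := le_antisymm h1 h2
      have e2 := Finset.equivOfCardEq e1
      refine ⟨(Equiv.subtypeEquivRight fun x => ?_).trans
        (e2.trans (Equiv.subtypeEquivRight fun x => ?_))⟩
      · rw [Set.Finite.mem_toFinset]
      · rw [Set.Finite.mem_toFinset]
    · have hA2 : ¬ A.Finite := fun h3 => hA (hfin A' A h' h3)
      have i1 : Infinite A := Set.infinite_coe_iff.2 hA2
      have i2 : Infinite A' := Set.infinite_coe_iff.2 hA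
      exact nonempty_equiv_of_countable
  obtain ⟨e⟩ := hne
  refine ⟨fun x => if hx : x ∈ A then (e ⟨x, hx⟩ : α) else x, ?_, ?_, ?_⟩
  · intro x hx
    simp only [dif_pos hx]
    exact (e ⟨x, hx⟩).2
  · intro x hx y hy hxy
    simp only [dif_pos hx, dif_pos hy] at hxy
    exact congrArg Subtype.val (e.injective (Subtype.ext hxy))
  · intro y hy
    refine ⟨(e.symm ⟨y, hy⟩ : α), (e.symm ⟨y, hy⟩).2, ?_⟩
    simp only [dif_pos (e.symm ⟨y, hy⟩).2]
    simp

variable {a : ℕ → ℕ} {M N M0 : Str a} {D D' E : Set ℕ} {Y : Set (Finset ℕ)}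
  {BY : Pos → Prop} {S S' : Finset ℕ} {p : Pos}

/-- finitely many cells of one colour are matched with cells of the same colour -/
theorem count_col (hF : Fy M0 E Y BY) (hM : nu M = M0) (hN : nu N = M0)
    (hB : BF M univ N univ (ω + ω + ω + ω) (idOn E)) (κ : Set (Finset ℕ × (ℕ → ℕ → Bool)))
    (F : Finset (Finset ℕ)) (hFA : (F : Set (Finset ℕ)) ⊆ {S | S ∈ Y ∧ colS M Y BY S = κ}) :
    ∃ F' : Finset (Finset ℕ), (F' : Set (Finset ℕ)) ⊆ {S | S ∈ Y ∧ colS N Y BY S = κ} ∧
      F'.card = F.card := by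
  classical
  obtain ⟨f, hf, hm⟩ := forth_set hB (F.biUnion id)
  have hmS : ∀ S ∈ F, Mt (idOn E ∪ gr f ((F.biUnion id : Finset ℕ) : Set ℕ)) (S : Set ℕ)
      ((S.image f : Finset ℕ) : Set ℕ) := fun S hS =>
    hm S fun x hx => Finset.mem_biUnion.2 ⟨S, hS, hx⟩
  refine ⟨F.image fun S => S.image f, ?_, ?_⟩
  · intro S' hS'
    rw [Finset.mem_coe, Finset.mem_image] at hS'
    obtain ⟨S, hS, rfl⟩ := hS'
    obtain ⟨h1, h2⟩ := hFA hS
    obtain ⟨h3, h4⟩ := col_eq hF hM hN hf subset_union_left h1 (hmS S hS)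
    exact ⟨h3, h4 ▸ h2⟩
  · refine Finset.card_image_of_injOn ?_
    intro S hS T hT hST
    have h1 := mt_pinv (hmS S hS)
    have h2 := mt_pinv (hmS T hT)
    simp only at hST
    rw [hST] at h1
    exact mt_inj hf.symm.pi h1 h2

/-- Symmetric families have a bijection which preserves the colours. -/
theorem sym_col (hF : Fy M0 E Y BY) (hM : nu M = M0) (hN : nu N = M0)
    (hB : BF M univ N univ (ω + ω + ω + ω) (idOn E)) : ∃ f : Finset ℕ → Finset ℕ,
      (∀ S ∈ Y, f S ∈ Y) ∧ (∀ S ∈ Y, ∀ T ∈ Y, f S = f T → S = T) ∧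
      (∀ S' ∈ Y, ∃ S ∈ Y, f S = S') ∧ ∀ S ∈ Y, colS M Y BY S = colS N Y BY (f S) := by
  have hB' : BF N univ M univ (ω + ω + ω + ω) (idOn E) := by
    have := hB.symm
    rwa [pinv_idOn] at this
  have h1 := fun κ => bij_of_cards {S | S ∈ Y ∧ colS M Y BY S = κ}
    {S | S ∈ Y ∧ colS N Y BY S = κ} (count_col hF hM hN hB κ) (count_col hF hN hM hB' κ)
  choose g hg using h1
  refine ⟨fun S => g (colS M Y BY S) S, ?_, ?_, ?_, ?_⟩
  · intro S hS
    exact ((hg _).mapsTo ⟨hS, rfl⟩).1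
  · intro S hS T hT hST
    have e1 := ((hg (colS M Y BY S)).mapsTo ⟨hS, rfl⟩).2
    have e2 := ((hg (colS M Y BY T)).mapsTo ⟨hT, rfl⟩).2
    simp only at hST
    rw [hST, e2] at e1
    rw [← e1] at hST
    exact (hg _).injOn ⟨hS, e1.symm⟩ ⟨hT, rfl⟩ hST
  · intro S' hS'
    obtain ⟨S, ⟨hS, h2⟩, h3⟩ := (hg (colS N Y BY S')).surjOn ⟨hS', rfl⟩
    exact ⟨S, hS, by simp only [h2]; exact h3⟩
  · intro S hS
    exact ((hg _).mapsTo ⟨hS, rfl⟩).2.symm

end Pool.H22.CO
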