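import Pool.Agent.H22.CO.Chain
import Pool.Agent.H22.CO.Sym
import Pool.Agent.H5.AA.Glue

/-!
# Two colourings of one structure: equivalent ones are isomorphic
-/

set_option autoImplicit false

namespace Pool.H22.CO

open Set Ordinal Pool.H62.VT Pool.H5.AA Pool.H5.HA Pool.H22.SY

variable {a : ℕ → ℕ} {M N M0 : Str a} {D E : Set ℕ} {c : ℕ} {C : Fin c → Set (Finset ℕ)}
  {lt : Fin c → Finset ℕ → Finset ℕ → Prop} {B : Fin c → Pos → Prop} {s : ℕ}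
  {Y : Fin s → Set (Finset ℕ)} {BY : Fin s → Pos → Prop}

theorem fin_idx {I : Type} (cell : I → Finset ℕ)
    (h : ∀ i i', (∃ x, x ∈ cell i ∧ x ∈ cell i') → i = i') {Q : Pos} (hQ : Q.Finite) :
    Finite {i : I // ∃ q ∈ Q, q.1 ∈ cell i} := by
  have hex : ∀ w : {i : I // ∃ q ∈ Q, q.1 ∈ cell i}, ∃ q, q ∈ Q ∧ q.1 ∈ cell w.1 := fun w => w.2
  choose f hf1 hf2 using hex
  have : Finite Q := hQ
  refine Finite.of_injective (fun w => (⟨f w, hf1 w⟩ : Q)) ?_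
  intro w w' hw
  have h1 : f w = f w' := congrArg Subtype.val hw
  exact Subtype.ext (h _ _ ⟨(f w).1, hf2 w, by rw [h1]; exact hf2 w'⟩)

/-- moving all symmetric cells -/
theorem sr_union (hY : SR M0 E D Y BY) (f : Fin s → Finset ℕ → Finset ℕ)
    (b : Fin s → Finset ℕ → Pos) (hf : ∀ j, ∀ S ∈ Y j, f j S ∈ Y j)
    (hinj : ∀ j, ∀ S ∈ Y j, ∀ T ∈ Y j, f j S = f j T → S = T)
    (hb : ∀ j, ∀ S ∈ Y j, MtS (b j S) S (f j S) ∧ BY j (b j S)) :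
    PI M0 M0 (idOn E ∪ {q | ∃ j, ∃ S ∈ Y j, q ∈ b j S}) := by
  classical
  apply pi_of_fin
  intro Q hQ hfin
  let J : Type := {w : Fin s × Finset ℕ // w.2 ∈ Y w.1}
  have hJ : ∀ i i' : J, (∃ x, x ∈ i.1.2 ∧ x ∈ i'.1.2) → i = i' := by
    intro i i' h
    obtain ⟨h2, h3⟩ := hY.dj _ _ _ _ i.2 i'.2 h
    exact Subtype.ext (Prod.ext h2 h3)
  have hI := fin_idx (fun i : J => i.1.2) hJ hfin
  have h1 := hY.free {i : J // ∃ q ∈ Q, q.1 ∈ i.1.2} (fun w => w.1.1.1) (fun w => w.1.1.2)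
    (fun w => f w.1.1.1 w.1.1.2) (fun w => b w.1.1.1 w.1.1.2) hI
    (fun w => ⟨w.1.2, hf _ _ w.1.2, (hb _ _ w.1.2).1, (hb _ _ w.1.2).2⟩)
    (fun w w' hne h => hne (Subtype.ext (by
      obtain ⟨x, hx⟩ := (hY.fy _).ne _ w.1.2
      exact hJ _ _ ⟨x, hx, h ▸ hx⟩)))
    (fun w w' hne h => hne (Subtype.ext (by
      obtain ⟨x, hx⟩ := (hY.fy _).ne _ (hf _ _ w.1.2)
      obtain ⟨h2, -⟩ := hY.dj _ _ _ _ (hf _ _ w.1.2) (hf _ _ w'.1.2) ⟨x, hx, h ▸ hx⟩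
      obtain ⟨⟨⟨j, S⟩, hS⟩, h3⟩ := w
      obtain ⟨⟨⟨j', S'⟩, hS'⟩, h3'⟩ := w'
      simp only at h2 h hS hS'
      subst h2
      have := hinj j S hS S' hS' h
      subst this
      rfl)))
  refine h1.mono ?_
  intro q hq
  rcases hQ hq with h2 | ⟨j, S, hSY, hqb⟩
  · exact Or.inl h2
  · exact Or.inr (mem_iUnion.2 ⟨⟨⟨(j, S), hSY⟩, q, hq, ((hb j S hSY).1.1 _ hqb).1⟩, hqb⟩)

/-- moving all cells of the chains -/
theorem st_union (hS : ST M0 E C lt B) (f : Fin c → Finset ℕ → Finset ℕ)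
    (b : Fin c → Finset ℕ → Pos) (hf : ∀ j, ∀ S ∈ C j, f j S ∈ C j)
    (hlt : ∀ j, ∀ S ∈ C j, ∀ T ∈ C j, lt j S T → lt j (f j S) (f j T))
    (hb : ∀ j, ∀ S ∈ C j, MtS (b j S) S (f j S) ∧ B j (b j S)) {P0 : Pos}
    (hP0 : PI M0 M0 (idOn E ∪ P0)) (hD : ∀ q ∈ P0, q.1 ∈ D0 E C ∧ q.2 ∈ D0 E C) :
    PI M0 M0 (idOn E ∪ P0 ∪ {q | ∃ j, ∃ S ∈ C j, q ∈ b j S}) := by
  classical
  apply pi_of_fin
  intro Q hQ hfin
  let J : Type := {w : Fin c × Finset ℕ // w.2 ∈ C w.1}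
  have hJ : ∀ i i' : J, (∃ x, x ∈ i.1.2 ∧ x ∈ i'.1.2) → i = i' := by
    intro i i' h
    obtain ⟨h2, h3⟩ := hS.dj _ _ _ _ i.2 i'.2 h
    exact Subtype.ext (Prod.ext h2 h3)
  have hI := fin_idx (fun i : J => i.1.2) hJ hfin
  have h1 := hS.free (Q ∩ P0) {i : J // ∃ q ∈ Q, q.1 ∈ i.1.2} (fun w => w.1.1.1)
    (fun w => w.1.1.2) (fun w => f w.1.1.1 w.1.1.2) (fun w => b w.1.1.1 w.1.1.2)
    (hfin.inter_of_left _) hI (hP0.mono (union_subset_union_right _ inter_subset_right))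
    (fun q hq => hD q hq.2)
    (fun w => ⟨w.1.2, hf _ _ w.1.2, (hb _ _ w.1.2).1, (hb _ _ w.1.2).2⟩)
    (fun w w' hne h => hne (Subtype.ext (by
      obtain ⟨x, hx⟩ := hS.ne _ _ w.1.2
      exact hJ _ _ ⟨x, hx, h ▸ hx⟩)))
    (fun w w' h h2 => by
      obtain ⟨⟨⟨j, S⟩, hSC⟩, h3⟩ := w
      obtain ⟨⟨⟨j', S'⟩, hSC'⟩, h3'⟩ := w'
      simp only at h h2 hSC hSC' ⊢
      subst h
      exact hlt j S hSC S' hSC' h2)
  refine h1.mono ?_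
  intro q hq
  rcases hQ hq with (h2 | h2) | ⟨j, S, hSC, hqb⟩
  · exact Or.inl (Or.inl h2)
  · exact Or.inl (Or.inr ⟨hq, h2⟩)
  · exact Or.inr (mem_iUnion.2 ⟨⟨⟨(j, S), hSC⟩, q, hq, ((hb j S hSC).1.1 _ hqb).1⟩, hqb⟩)

/-- Two colourings of one structure: equivalent ones are isomorphic. -/
theorem col_iso (hS : ST M0 E C lt B) (hY : SR M0 E (D0 E C) Y BY) (hM : nu M = M0)
    (hN : nu N = M0) {ρ κ : Ordinal.{0}} (hA : AllD CCol ρ κ) (hR : ∀ j, RkC (C j) (lt j) ρ)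
    (hB1 : BF M univ N univ (lev3 κ) (idOn E))
    (hB2 : BF M univ N univ (ω + ω + ω + ω) (idOn E)) : Iso M univ N univ ∅ := by
  classical
  -- the chains
  have hc := fun j => chain_col hS hM hN hA j (hR j) hB1
  choose f hf1 hf2 hf3 hf4 using hc
  have hcm : ∀ (j : Fin c) (S : Finset ℕ), ∃ b : Pos, S ∈ C j →
      MtS b S (f j S) ∧ B j b ∧ ∀ q ∈ b, pc M q.1 = pc N q.2 := by
    intro j S
    by_cases h : S ∈ C j
    · obtain ⟨b, h1⟩ := col_match (M := N) (N := M) (fy_of_st hS j) (hf1 j S h) (hf4 j S h).symm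
      exact ⟨b, fun _ => h1⟩
    · exact ⟨∅, fun h' => absurd h' h⟩
  choose b hb using hcm
  -- the symmetric families
  have hs := fun j => sym_col (hY.fy j) hM hN hB2
  choose g hg1 hg2 hg3 hg4 using hs
  have hsm : ∀ (j : Fin s) (S : Finset ℕ), ∃ b : Pos, S ∈ Y j →
      MtS b S (g j S) ∧ BY j b ∧ ∀ q ∈ b, pc M q.1 = pc N q.2 := by
    intro j S
    by_cases h : S ∈ Y j
    · obtain ⟨b, h1⟩ := col_match (M := N) (N := M) (hY.fy j) (hg1 j S h) (hg4 j S h).symm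
      exact ⟨b, fun _ => h1⟩
    · exact ⟨∅, fun h' => absurd h' h⟩
  choose b' hb' using hsm
  have h1 := sr_union hY g b' hg1 hg2 fun j S h => ⟨(hb' j S h).1, (hb' j S h).2.1⟩
  have h2 := st_union hS f b hf1 hf3 (fun j S h => ⟨(hb j S h).1, (hb j S h).2.1⟩) h1 (by
    rintro q ⟨j, S, hSY, hq⟩
    have h3 := (hb' j S hSY).1.1 q hq
    exact ⟨hY.sub j S hSY _ h3.1, hY.sub j _ (hg1 j S hSY) _ h3.2⟩)
  set P : Pos := idOn E ∪ {q | ∃ j, ∃ S ∈ Y j, q ∈ b' j S} ∪ {q | ∃ j, ∃ S ∈ C j, q ∈ b j S}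
    with hP
  have t1 : ∀ x, ∃ y, (x, y) ∈ P := by
    intro x
    by_cases hx : x ∈ E
    · exact ⟨x, Or.inl (Or.inl ⟨hx, rfl⟩)⟩
    · by_cases hx2 : ∃ j, ∃ S ∈ C j, x ∈ S
      · obtain ⟨j, S, hSj, hxS⟩ := hx2
        obtain ⟨y, -, hy⟩ := (hb j S hSj).1.2.1 x hxS
        exact ⟨y, Or.inr ⟨j, S, hSj, hy⟩⟩
      · obtain ⟨j, S, hSj, hxS⟩ := hY.cov x ⟨hx, fun j S hSj hxS => hx2 ⟨j, S, hSj, hxS⟩⟩
        obtain ⟨y, -, hy⟩ := (hb' j S hSj).1.2.1 x hxS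
        exact ⟨y, Or.inl (Or.inr ⟨j, S, hSj, hy⟩)⟩
  have t2 : ∀ y, ∃ x, (x, y) ∈ P := by
    intro y
    by_cases hy : y ∈ E
    · exact ⟨y, Or.inl (Or.inl ⟨hy, rfl⟩)⟩
    · by_cases hy2 : ∃ j, ∃ S ∈ C j, y ∈ S
      · obtain ⟨j, S', hSj, hyS⟩ := hy2
        obtain ⟨S, hSC, rfl⟩ := hf2 j S' hSj
        obtain ⟨x, -, hx⟩ := (hb j S hSC).1.2.2 y hyS
        exact ⟨x, Or.inr ⟨j, S, hSC, hx⟩⟩
      · obtain ⟨j, S', hSj, hyS⟩ := hY.cov y ⟨hy, fun j S hSj hyS => hy2 ⟨j, S, hSj, hyS⟩⟩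
        obtain ⟨S, hSC, rfl⟩ := hg3 j S' hSj
        obtain ⟨x, -, hx⟩ := (hb' j S hSC).1.2.2 y hyS
        exact ⟨x, Or.inl (Or.inr ⟨j, S, hSC, hx⟩)⟩
  have hcol : ∀ q ∈ P, pc M q.1 = pc N q.2 := by
    rintro q ((hq | ⟨j, S, hSY, hq⟩) | ⟨j, S, hSC, hq⟩)
    · exact pc_eq hB2.pi hq
    · exact (hb' j S hSY).2.2 q hq
    · exact (hb j S hSC).2.2 q hq
  have hPI : PI M N P := by
    refine pi_of_nu ?_ hcol ?_
    · rw [hM, hN]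
      exact h2
    · obtain ⟨y, hy⟩ := t1 0
      exact ⟨_, hy⟩
  exact iso_of_total hPI t1 t2 (empty_subset _)

end Pool.H22.CO
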