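import Pool.Agent.H22.CO.Def
import Pool.Agent.H22.SY.Fin
import Pool.Agent.H62.VT.Sys

/-!
# The group of automorphisms fixing everything outside a set
-/

set_option autoImplicit false

namespace Pool.H22.CO

open Set Ordinal Pool.H62.VT Pool.H5.AA Pool.H22.SY

variable {a : ℕ → ℕ} {M : Str a} {D D' E : Set ℕ} {c : ℕ} {C : Fin c → Set (Finset ℕ)}
  {lt : Fin c → Finset ℕ → Finset ℕ → Prop} {B : Fin c → Pos → Prop}

theorem au_clo (M : Str a) (D : Set ℕ) : Clo (Au M D) := by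
  classical
  intro g hg
  refine ⟨fun n t => ?_, fun x hx => ?_⟩
  · obtain ⟨h, hh, h1⟩ := hg (Finset.univ.image t)
    rw [← hh.1 n t]
    congr 1
    funext i
    exact (h1 _ (Finset.mem_image_of_mem t (Finset.mem_univ i))).symm
  · obtain ⟨h, hh, h1⟩ := hg {x}
    rw [← h1 x (Finset.mem_singleton_self x)]
    exact hh.2 x hx

theorem pi_of_au {g : Equiv.Perm ℕ} (hg : g ∈ Au M D) : PI M M (gr g univ) := by
  refine ⟨fun n t ht => ?_, fun q hq r hr => ?_⟩
  · have e1 : (fun i => (t i).2) = fun i => g (t i).1 := funext fun i => (ht i).2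
    rw [e1]
    exact (hg.1 n _).symm
  · rw [hq.2, hr.2]
    exact g.injective.eq_iff.symm

/-- a total partial isomorphism which is the identity outside `D` gives a member of the group -/
theorem au_of_total {P : Pos} (hP : PI M M P) (h1 : ∀ x, ∃ y, (x, y) ∈ P)
    (h2 : ∀ y, ∃ x, (x, y) ∈ P) (hD : ∀ x, x ∉ D → (x, x) ∈ P) :
    ∃ g ∈ Au M D, ∀ q ∈ P, g q.1 = q.2 := by
  choose g hg using h1
  have hgu : ∀ q ∈ P, g q.1 = q.2 := fun q hq => (hP.2 _ (hg q.1) _ hq).1 rfl
  have hbij : Function.Bijective g := by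
    constructor
    · intro x y hxy
      exact (hP.2 _ (hg x) _ (hg y)).2 hxy
    · intro y
      obtain ⟨x, hx⟩ := h2 y
      exact ⟨x, hgu _ hx⟩
  refine ⟨Equiv.ofBijective g hbij, ⟨fun n t => ?_, fun x hx => hgu _ (hD x hx)⟩, hgu⟩
  exact (hP.1 n (fun i => (t i, g (t i))) fun i => hg (t i)).symm

/-- removing finitely many points from a cellular set -/
theorem HCl.cofin (h : HCl M D) (hD : D' ⊆ D) (hf : (D \ D').Finite) :
    ∃ D'' ⊆ D', (D' \ D'').Finite ∧ HCl M D'' := by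
  obtain ⟨m, c, q, h1, h2, h3⟩ := h
  refine ⟨{y | y ∈ D' ∧ ∀ z ∈ D \ D', q z ≠ q y}, fun y hy => hy.1, ?_, m, c, q,
    fun y hy => h1 y (hD hy.1), fun y hy y' hy' => h2 y (hD hy.1) y' (hD hy'.1), ?_⟩
  · have hsub : D' \ {y | y ∈ D' ∧ ∀ z ∈ D \ D', q z ≠ q y} ⊆
        ⋃ z ∈ D \ D', {y | y ∈ D ∧ q y = q z} := by
      rintro y ⟨hy, hy'⟩
      have : ∃ z ∈ D \ D', q z = q y := by
        by_contra hcon
        push Not at hcon
        exact hy' ⟨hy, hcon⟩
      obtain ⟨z, hz, hzq⟩ := this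
      simp only [mem_iUnion]
      exact ⟨z, hz, hD hy, hzq.symm⟩
    exact (hf.biUnion fun z _ => blk_finite h1 h2 (q z)).subset hsub
  · intro g hg1 hg2 hg3
    set D2 : Set ℕ := {y | y ∈ D' ∧ ∀ z ∈ D \ D', q z ≠ q y} with hD2
    have hmap : ∀ y ∈ D2, g y ∈ D2 := by
      intro y hy
      by_contra hcon
      have h4 := hg1 _ hcon
      rw [g.injective h4] at hcon
      exact hcon hy
    -- the blocks of the points outside `D2`
    have hout : ∀ z ∈ D, z ∉ D2 → ∀ y ∈ D2, q y ≠ q z := by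
      intro z hz hz2 y hy h5
      by_cases hzD : z ∈ D'
      · have : ∃ w ∈ D \ D', q w = q z := by
          by_contra hcon
          push Not at hcon
          exact hz2 ⟨hzD, hcon⟩
        obtain ⟨w, hw, hwq⟩ := this
        exact hy.2 w hw (hwq.trans h5.symm)
      · exact hy.2 z ⟨hz, hzD⟩ h5.symm
    have hD2D : ∀ {y}, y ∈ D2 → y ∈ D := fun hy => hD hy.1
    have h4 := h3 g (fun y hy => hg1 y fun h => hy (hD2D h)) (fun y hy => by
      by_cases hy2 : y ∈ D2
      · exact hg2 y hy2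
      · rw [hg1 y hy2]) (fun y hy y' hy' => by
      by_cases hy2 : y ∈ D2
      · by_cases hy2' : y' ∈ D2
        · exact hg3 y hy2 y' hy2'
        · rw [hg1 y' hy2']
          exact ⟨fun h => absurd h (hout y' hy' hy2' y hy2),
            fun h => absurd h (hout y' hy' hy2' _ (hmap y hy2))⟩
      · rw [hg1 y hy2]
        by_cases hy2' : y' ∈ D2
        · exact ⟨fun h => absurd h.symm (hout y hy hy2 y' hy2'),
            fun h => absurd h.symm (hout y hy hy2 _ (hmap y' hy2'))⟩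
        · rw [hg1 y' hy2'])
    exact ⟨h4.1, fun x hx => hg1 x hx⟩

/-- The structure `ST` with finitely many more named points of the rest. -/
theorem st_mono (hS : ST M E C lt B) {X : Set ℕ} (hX : X ⊆ D0 E C) (hf : X.Finite) :
    ST M (E ∪ X) C lt B ∧ D0 (E ∪ X) C = D0 E C \ X := by
  classical
  have hD : D0 (E ∪ X) C = D0 E C \ X := by
    ext x
    constructor
    · rintro ⟨h1, h2⟩
      exact ⟨⟨fun h => h1 (Or.inl h), h2⟩, fun h => h1 (Or.inr h)⟩
    · rintro ⟨⟨h1, h2⟩, h3⟩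
      exact ⟨fun h => h.elim h1 h3, h2⟩
  have hid : ∀ {p : Pos}, idOn (E ∪ X) ⊆ p → idOn E ⊆ p := fun h q hq => h ⟨Or.inl hq.1, hq.2⟩
  refine ⟨?_, hD⟩
  refine { finE := hS.finE.union hf, ne := hS.ne, dE := ?_, dj := hS.dj, irr := hS.irr, tr := hS.tr
           tot := hS.tot, reco := fun j S hSC S' p hB hE hm => hS.reco j S hSC S' p hB (hid hE) hm
           ord := fun j S hSC T hTC S' T' p hB hE => hS.ord j S hSC T hTC S' T' p hB (hid hE)
           hom := hS.hom, comp := hS.comp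
           lab := fun j S hSC S' hSC' p hB hE => hS.lab j S hSC S' hSC' p hB (hid hE)
           free := ?_, cel := ?_ }
  · rintro j S hSC x hx (h | h)
    · exact hS.dE j S hSC x hx h
    · exact (hX h).2 j S hSC hx
  · intro p0 I j S S' b hp0 hI hPI hp0D h1 h2 h3
    have h4 := hS.free (p0 ∪ idOn X) I j S S' b (hp0.union (by
      refine (hf.image fun x => (x, x)).subset ?_
      rintro ⟨x, y⟩ ⟨hx, hxy⟩
      simp only at hx hxy
      subst hxy
      exact ⟨x, hx, rfl⟩)) hI (hPI.mono (by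
      rintro q (hq | hq | hq)
      · exact Or.inl ⟨Or.inl hq.1, hq.2⟩
      · exact Or.inr hq
      · exact Or.inl ⟨Or.inr hq.1, hq.2⟩)) (by
      rintro q (hq | hq)
      · have := hp0D q hq
        rw [hD] at this
        exact ⟨this.1.1, this.2.1⟩
      · exact ⟨hX hq.1, hq.2 ▸ hX hq.1⟩) h1 h2 h3
    refine h4.mono ?_
    rintro q ((⟨hq | hq, hq'⟩ | hq) | hq)
    · exact Or.inl (Or.inl ⟨hq, hq'⟩)
    · exact Or.inl (Or.inr (Or.inr ⟨hq, hq'⟩))
    · exact Or.inl (Or.inr (Or.inl hq))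
    · exact Or.inr hq
  · intro k
    obtain ⟨l, f, hfX⟩ : ∃ (l : ℕ) (f : Fin l → ℕ), range f = X := by
      have := hf.to_subtype
      obtain ⟨l, ⟨e⟩⟩ := Finite.exists_equiv_fin X
      refine ⟨l, fun i => (e.symm i : ℕ), ?_⟩
      ext y
      constructor
      · rintro ⟨i, rfl⟩
        exact (e.symm i).2
      · intro hy
        exact ⟨e ⟨y, hy⟩, by simp⟩
    obtain ⟨R, hR, hR2⟩ := hS.cel (k + l)
    let Cl : (Fin (k + l) → ℕ) → (Fin k → ℕ) → Prop := fun r u =>
      Iso M univ M univ (idOn E ∪ {q | ∃ i, q = ((Fin.append u f : Fin (k + l) → ℕ) i, r i)})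
    have hch : ∀ r : Fin (k + l) → ℕ, ∃ v : Fin k → ℕ, (∃ u, Cl r u) → Cl r v := by
      intro r
      by_cases h : ∃ u, Cl r u
      · obtain ⟨u, hu⟩ := h
        exact ⟨u, fun _ => hu⟩
      · exact ⟨fun _ => 0, fun h' => absurd h' h⟩
    choose rep hrep using hch
    refine ⟨rep '' R, hR.image _, fun u hu => ?_⟩
    have huD : ∀ i, u i ∈ D0 E C := fun i => by
      have := hu i
      rw [hD] at this
      exact this.1
    obtain ⟨r, hr, h1⟩ := hR2 (Fin.append u f) (by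
      intro i
      refine Fin.addCases (fun i => ?_) (fun i => ?_) i
      · rw [Fin.append_left]
        exact huD i
      · rw [Fin.append_right]
        exact hX (hfX ▸ mem_range_self i))
    have h2 := hrep r ⟨u, h1⟩
    refine ⟨rep r, mem_image_of_mem _ hr, ?_⟩
    have hin : ∀ p : Pos, PIn p univ univ := fun p q _ => ⟨mem_univ _, mem_univ _⟩
    refine (Iso.trans h1 (Iso.symm h2 (hin _)) (hin _)).mono ?_
    have hfst : ∀ i : Fin k, (Fin.append u f : Fin (k + l) → ℕ) (Fin.castAdd l i) = u i :=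
      fun i => Fin.append_left u f i
    have hfst' : ∀ i : Fin k, (Fin.append (rep r) f : Fin (k + l) → ℕ) (Fin.castAdd l i) =
      rep r i := fun i => Fin.append_left _ f i
    have hsnd : ∀ i : Fin l, (Fin.append u f : Fin (k + l) → ℕ) (Fin.natAdd k i) = f i :=
      fun i => Fin.append_right u f i
    have hsnd' : ∀ i : Fin l, (Fin.append (rep r) f : Fin (k + l) → ℕ) (Fin.natAdd k i) = f i :=
      fun i => Fin.append_right _ f i
    rintro ⟨q1, q2⟩ (⟨hq | hq, hq'⟩ | ⟨i, hi⟩)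
    · simp only at hq'
      subst hq'
      exact ⟨q1, Or.inl ⟨hq, rfl⟩, Or.inl ⟨hq, rfl⟩⟩
    · simp only at hq'
      subst hq'
      rw [← hfX] at hq
      obtain ⟨i, rfl⟩ := hq
      refine ⟨r (Fin.natAdd k i), Or.inr ⟨Fin.natAdd k i, ?_⟩, Or.inr ⟨Fin.natAdd k i, ?_⟩⟩
      · rw [hsnd]
      · rw [hsnd']
    · rw [Prod.mk.injEq] at hi
      obtain ⟨rfl, rfl⟩ := hi
      refine ⟨r (Fin.castAdd l i), Or.inr ⟨Fin.castAdd l i, ?_⟩, Or.inr ⟨Fin.castAdd l i, ?_⟩⟩
      · rw [hfst]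
      · rw [hfst']

end Pool.H22.CO
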