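import Pool.Agent.H22.CO.Pull
import Pool.Agent.H5.AB.Fin

/-!
# Analytic classes of structures with arbitrary unary relations: countably many types
-/

set_option autoImplicit false

namespace Pool.H22.CO

open Set Ordinal Pool.H62.VT Pool.H5.AA Pool.H5.HA Pool.H22.SY Pool.H5.AB Pool.H22.VN

variable {a : ℕ → ℕ} {r : ℕ}

/-- without its unary relations `M` is composed of chains of cells of rank less than `ρ` and a
cellular rest -/
def DecC (M : Str a) (ρ : Ordinal.{0}) : Prop :=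
  ∃ (c : ℕ) (E : Set ℕ) (C : Fin c → Set (Finset ℕ)) (lt : Fin c → Finset ℕ → Finset ℕ → Prop)
    (B : Fin c → Pos → Prop), ST (nu M) E C lt B ∧ (∀ j, RkC (C j) (lt j) ρ) ∧
      ∃ D ⊆ D0 E C, (D0 E C \ D).Finite ∧ HCl (nu M) D

/-- one level for all coloured structures -/
theorem decC_level {ρ : Ordinal.{0}} (hρ : ρ < ω₁) : ∃ κ : Ordinal.{0}, κ < ω₁ ∧
    ∀ M : Str a, DecC M ρ → ∀ N : Str a, BF M univ N univ κ ∅ → Iso M univ N univ ∅ := by
  obtain ⟨κ, hκ, hA, -⟩ := Pool.H5.HA.scattered Unit ρ hρ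
  obtain ⟨κ', hκ', hA', -⟩ := Pool.H5.HA.scattered CCol ρ hρ
  have hω : (ω : Ordinal.{0}) < ω₁ := omega_lt_omega_one
  have h1 : (1 : Ordinal.{0}) < ω₁ := one_lt_omega0.trans hω
  have h2 : (ω + ω + ω : Ordinal.{0}) < ω₁ := add_lt_omega_one (add_lt_omega_one hω hω) hω
  have hlev : lev (κ + 1) < ω₁ := by
    unfold lev
    exact add_lt_omega_one (add_lt_omega_one hω hω)
      (isPrincipal_mul_omega 1 hω (add_lt_omega_one hκ h1))
  have hlev3 : lev3 κ' < ω₁ := by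
    unfold lev3
    exact add_lt_omega_one h2 (isPrincipal_mul_omega 1 hω hκ')
  obtain ⟨μ, hμ, hmax, hμ1⟩ := good_exists
    (max_lt (max_lt hlev hlev3) (add_lt_omega_one h2 hω))
  have g1 : lev (κ + 1) ≤ μ := (le_max_left _ _).trans ((le_max_left _ _).trans hmax.le)
  have g2 : lev3 κ' ≤ μ := (le_max_right _ _).trans ((le_max_left _ _).trans hmax.le)
  have g3 : ω + ω + ω + ω ≤ μ := (le_max_right _ _).trans hmax.le
  have g4 : (ω + ω + ω : Ordinal.{0}) < μ := by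
    refine lt_of_lt_of_le ?_ g3
    conv_lhs => rw [← add_zero (ω + ω + ω : Ordinal.{0})]
    exact add_lt_add_of_le_of_lt le_rfl omega0_pos
  have hL : Lm μ := by
    refine ⟨lt_of_le_of_lt le_self_add g4, ?_⟩
    intro β hβ
    refine lt_of_le_of_lt ?_ (hμ.2 β hβ)
    gcongr
    exact one_lt_omega0.le
  refine ⟨μ + ω, add_lt_omega_one hμ1 hω, ?_⟩
  rintro M ⟨c, E, C, lt, B, hS, hR, D, hD, hDf, hH⟩ N hB
  obtain ⟨E1, hE1, hS1, s, Y, BY, hY⟩ := sr_of hS hD hDf hH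
  obtain ⟨N', hN', hiso, hB'⟩ := pull_back hS1 hA hR hL g4.le g1 hB
  have h3 := col_iso hS1 hY rfl hN' hA' hR (hB'.level g2) (hB'.level g3)
  have h4 := Iso.trans h3 hiso (fun q _ => ⟨mem_univ _, mem_univ _⟩)
  exact h4.mono (empty_subset _)

/-- Analytic classes of coloured structures of bounded rank. -/
theorem decC_countable (K : Set (Str a)) (hK : MeasureTheory.AnalyticSet K) (hn : NoPerf K)
    {ρ : Ordinal.{0}} (hρ : ρ < ω₁) (h : ∀ x ∈ K, DecC x ρ) :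
    ∃ C : Set (Str a), C.Countable ∧ ∀ x ∈ K, ∃ c ∈ C, ∃ σ : Equiv.Perm ℕ,
      ∀ (n : ℕ) (t : Fin (a n) → ℕ), c n (fun i => σ (t i)) = x n t := by
  obtain ⟨κ, hκ, hdet⟩ := decC_level (a := a) hρ
  exact Pool.H5.HA.countable_types K hK hn hκ fun M hM N _ => hdet M (h M hM) N

/-- structures with free families and a cellular rest are composed -/
theorem decC_of_ff (har : ∀ n, a n ≤ r) (hr : 2 ≤ r) {M : Str a} {I : Type} [LinearOrder I]
    {Rn : Finset I} {E E' : Set ℕ} {m c : ℕ} {kd : I → ℕ} {sz : ℕ → ℕ} {x : I → ℕ → ℕ}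
    (hF : FF (nu M) Rn E E' m c kd sz x)
    (hsw : ∀ k < c, ∃ a0 b0,
      ¬ GQ (Qi (QL (nu M) (Rs kd sz x k) kd sz x k)) (a0 + b0 + 2) (sw a0))
    (hrot : ∀ k < c, ∃ m0, ¬ GQ (Qi (QL (nu M) (Rs kd sz x k) kd sz x k)) m0 (rl m0))
    {ρ : Ordinal.{0}} (hρ : ∀ k < c, ¬ Rk ρ (univ : Set (Lk kd k)))
    (hH : HCl (nu M) (Dr E kd sz x)) : DecC M ρ := by
  obtain ⟨Nm, EE, hN⟩ := exists_nd har hr hF hsw hrot
  refine ⟨_, _, _, _, _, st_of_nd hF hN, fun j => rkC_of hF (hρ _ (kk_lt j)), ?_⟩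
  refine hH.cofin ?_ ?_
  · intro y hy
    obtain ⟨h1, h2⟩ := (d0_iff hF hN y).1 hy
    refine ⟨fun h => h1 (hN.sub (hF.sub h)), fun i d hd e => h2 i ?_⟩
    exact mem_cell.2 ⟨d, hd, e.symm⟩
  · refine hN.fin.subset ?_
    rintro y ⟨⟨-, h1⟩, h2⟩
    by_contra h3
    refine h2 ((d0_iff hF hN y).2 ⟨h3, fun i hi => ?_⟩)
    obtain ⟨d, hd, e⟩ := mem_cell.1 hi
    exact h1 i d hd e.symm

/-- Analytic classes of structures which, without their unary relations, are not wild and have free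
families. -/
theorem ffC_countable (har : ∀ n, a n ≤ r) (hr : 2 ≤ r) (K : Set (Str a))
    (hK : MeasureTheory.AnalyticSet K) (hn : NoPerf K)
    (hW : ∀ M ∈ K, ¬ Pool.H22.VC.Wild (cod r (nu M)) univ) (hFF : ∀ M ∈ K, HasFF (nu M)) :
    ∃ C : Set (Str a), C.Countable ∧ ∀ x ∈ K, ∃ c ∈ C, ∃ σ : Equiv.Perm ℕ,
      ∀ (n : ℕ) (t : Fin (a n) → ℕ), c n (fun i => σ (t i)) = x n t := by
  obtain ⟨ρ, hρ, hb⟩ := rank_bound har (nu '' K) (hK.image_of_continuous nu_continuous) (by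
    rintro _ ⟨M, hM, rfl⟩
    exact hW M hM)
  refine decC_countable K hK hn hρ fun M hM => ?_
  obtain ⟨I, _, Rn, E, E', m, c, kd, sz, x, hF, hH⟩ := hFF M hM
  obtain ⟨I', _, Rn', E1, E1', kd', x', hF', hrot, hDr⟩ := ff_norm _ I Rn E E' kd x hF rfl
  rw [← hDr] at hH
  refine decC_of_ff har hr hF' (fun k hk => hsw_of hF' hk) hrot (fun k hk => ?_) hH
  refine hb (nu M) ⟨M, hM, rfl⟩ I' Rn' E1 E1' m c kd' sz x' hF' k hk ?_
  obtain ⟨a0, b0, h⟩ := sw_of_nsym hF' hk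
  exact ⟨a0, b0, fun h1 => h ((gq_q1 (ls_kind hF' k (subset_refl _))).1 h1)⟩

end Pool.H22.CO
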