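import Pool.Agent.H22.CO.Def

/-!
# Forgetting the unary relations
-/

set_option autoImplicit false

namespace Pool.H22.CO

open Set Ordinal Pool.H62.VT Pool.H5.AA

variable {a : ℕ → ℕ} {M N : Str a} {D D' : Set ℕ} {p : Pos} {α : Ordinal.{0}}

theorem nu_of_ne {n : ℕ} {t : Fin (a n) → ℕ} (h : ∃ i j, t i ≠ t j) : nu M n t = M n t := by
  unfold nu
  rw [Bool.eq_iff_iff, decide_eq_true_iff]
  exact ⟨fun h1 => h1.2, fun h1 => ⟨h, h1⟩⟩

theorem nu_of_eq {n : ℕ} {t : Fin (a n) → ℕ} (h : ∀ i j, t i = t j) : nu M n t = false := by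
  unfold nu
  rw [decide_eq_false_iff_not]
  rintro ⟨⟨i, j, h1⟩, -⟩
  exact h1 (h i j)

theorem pi_nu (h : PI M N p) : PI (nu M) (nu N) p := by
  refine ⟨fun n t ht => ?_, h.2⟩
  by_cases h1 : ∃ i j, (t i).1 ≠ (t j).1
  · rw [nu_of_ne h1, nu_of_ne, h.1 n t ht]
    obtain ⟨i, j, h2⟩ := h1
    exact ⟨i, j, fun h3 => h2 ((h.2 _ (ht i) _ (ht j)).2 h3)⟩
  · push Not at h1
    rw [nu_of_eq h1, nu_of_eq]
    intro i j
    exact (h.2 _ (ht i) _ (ht j)).1 (h1 i j)

theorem bf_nu (h : BF M D N D' α p) : BF (nu M) D (nu N) D' α p := by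
  induction α using WellFoundedLT.induction generalizing p with
  | ind α ih =>
    rw [BF_iff] at h ⊢
    refine ⟨pi_nu h.1, fun β hβ => ⟨fun v hv => ?_, fun v hv => ?_⟩⟩
    · obtain ⟨v', hv', h1⟩ := (h.2 β hβ).1 v hv
      exact ⟨v', hv', ih β hβ h1⟩
    · obtain ⟨v', hv', h1⟩ := (h.2 β hβ).2 v hv
      exact ⟨v', hv', ih β hβ h1⟩

theorem pc_eq (h : PI M N p) {q : ℕ × ℕ} (hq : q ∈ p) : pc M q.1 = pc N q.2 := by
  funext n
  exact h.1 n (fun _ => q) fun _ => hq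

/-- a partial isomorphism which preserves the colours -/
theorem pi_of_nu (h : PI (nu M) (nu N) p) (hc : ∀ q ∈ p, pc M q.1 = pc N q.2)
    (hne : p.Nonempty) : PI M N p := by
  refine ⟨fun n t ht => ?_, h.2⟩
  by_cases h1 : ∃ i j, (t i).1 ≠ (t j).1
  · have h2 := h.1 n t ht
    have h3 : ∃ i j, (t i).2 ≠ (t j).2 := by
      obtain ⟨i, j, h2⟩ := h1
      exact ⟨i, j, fun h3 => h2 ((h.2 _ (ht i) _ (ht j)).2 h3)⟩
    rwa [nu_of_ne h1, nu_of_ne h3] at h2
  · push Not at h1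
    have key : ∃ q ∈ p, ∀ i, (t i).1 = q.1 ∧ (t i).2 = q.2 := by
      rcases Nat.eq_zero_or_pos (a n) with h0 | h0
      · obtain ⟨q, hq⟩ := hne
        exact ⟨q, hq, fun i => absurd i.2 (by omega)⟩
      · exact ⟨t ⟨0, h0⟩, ht _, fun i => ⟨h1 i _, (h.2 _ (ht i) _ (ht _)).1 (h1 i _)⟩⟩
    obtain ⟨q, hq, h2⟩ := key
    have h3 := congrFun (hc q hq) n
    have e1 : (fun i => (t i).1) = fun _ => q.1 := funext fun i => (h2 i).1
    have e2 : (fun i => (t i).2) = fun _ => q.2 := funext fun i => (h2 i).2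
    rw [e1, e2]
    exact h3

theorem nu_nu : nu (nu M) = nu M := by
  funext n t
  by_cases h : ∃ i j, t i ≠ t j
  · rw [nu_of_ne h]
  · push Not at h
    rw [nu_of_eq h, nu_of_eq h]

theorem nu_continuous : Continuous (nu : Str a → Str a) := by
  refine continuous_pi fun n => continuous_pi fun t => ?_
  by_cases h : ∃ i j, t i ≠ t j
  · have e1 : (fun M : Str a => nu M n t) = fun M => M n t := funext fun M => nu_of_ne h
    rw [e1]
    exact (continuous_apply t).comp (continuous_apply n)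
  · push Not at h
    have e1 : (fun M : Str a => nu M n t) = fun _ => false := funext fun M => nu_of_eq h
    rw [e1]
    exact continuous_const

end Pool.H22.CO
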