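import Pool.Agent.H22.CO.Glue

/-!
# Equivalent structures are colourings of one structure
-/

set_option autoImplicit false

namespace Pool.H22.CO

open Set Ordinal Pool.H62.VT Pool.H5.AA Pool.H5.HA Pool.H22.SY

variable {a : ℕ → ℕ} {M N M0 : Str a} {D E : Set ℕ} {c : ℕ} {C : Fin c → Set (Finset ℕ)}
  {lt : Fin c → Finset ℕ → Finset ℕ → Prop} {B : Fin c → Pos → Prop} {pe : Pos}

/-- Structures composed of chains of cells are determined by the back and forth class: the version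
which keeps the images of the named points. -/
theorem glue_pe (hS : ST M E C lt B) {ρ κ : Ordinal.{0}} (hA : AllD Unit ρ κ)
    (hR : ∀ j, RkC (C j) (lt j) ρ) {μ : Ordinal.{0}} (hμ : Lm μ) (hμ2 : ω + ω + ω ≤ μ)
    (hμ3 : lev (κ + 1) ≤ μ) (hb : Bas E pe) (h0 : BF M univ N univ μ pe) :
    Iso M univ N univ pe := by
  classical
  have hww : BF M univ N univ (ω + ω) pe := h0.level hμ.1.le
  obtain ⟨P0, hP1, hP2, hP3⟩ := cell_iso hS hb hμ h0
  have hc := fun j => chain_iso hS hb hA j (hR j) (h0.level hμ3)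
  choose f hf1 hf2 hf3 using hc
  have hcell : ∀ (i : Σ j : Fin c, Pf (C j)), ∃ b : Pos, MtS b i.2.1 (f i.1 i.2.1) ∧
      BN M N (C i.1) (B i.1) pe i.2.1 (f i.1 i.2.1) b := fun i =>
        cell_match hS i.2.2 (hf1 i.1 _ i.2.2)
  choose b hb1 hb2 using hcell
  have hPI : PI M N (pe ∪ P0 ∪ ⋃ i, b i) := by
    refine free_N hS hb (h0.level hμ2) P0 (Σ j : Fin c, Pf (C j)) (fun i => i.1) (fun i => i.2.1)
      (fun i => f i.1 i.2.1) b hP3 hP1 (fun i => ⟨i.2.2, hf1 i.1 _ i.2.2, hb1 i, hb2 i⟩) ?_ ?_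
    · rintro ⟨i, S, hSi⟩ ⟨i', S', hSi'⟩ hne heq
      simp only at heq
      subst heq
      obtain ⟨x, hx⟩ := hS.ne i S hSi
      obtain ⟨rfl, -⟩ := hS.dj i i' S S hSi hSi' ⟨x, hx, hx⟩
      exact hne rfl
    · rintro ⟨i, S, hSi⟩ ⟨i', S', hSi'⟩ heq hlt
      simp only at heq
      subst heq
      exact hf3 i S hSi S' hSi' hlt
  refine iso_of_total hPI ?_ ?_ (fun q hq => Or.inl (Or.inl hq))
  · intro x
    by_cases hx : x ∈ E
    · obtain ⟨y, hy⟩ := hb.2 x hx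
      exact ⟨y, Or.inl (Or.inl hy)⟩
    · by_cases hx2 : ∃ j, ∃ S ∈ C j, x ∈ S
      · obtain ⟨j, S, hSj, hxS⟩ := hx2
        obtain ⟨y, -, hy⟩ := (hb1 ⟨j, S, hSj⟩).2.1 x hxS
        exact ⟨y, Or.inr (mem_iUnion.2 ⟨_, hy⟩)⟩
      · obtain ⟨y, -, hy⟩ := hP2.1 x ⟨hx, fun j S hSj hxS => hx2 ⟨j, S, hSj, hxS⟩⟩
        exact ⟨y, Or.inl (Or.inr hy)⟩
  · intro y
    by_cases hx : ∃ x, (x, y) ∈ pe
    · obtain ⟨x, hx⟩ := hx
      exact ⟨x, Or.inl (Or.inl hx)⟩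
    · by_cases hx2 : ∃ j, ∃ S ∈ CC M N (C j) pe, y ∈ S
      · obtain ⟨j, S', hSj, hyS⟩ := hx2
        obtain ⟨S, hSC, rfl⟩ := hf2 j S' hSj
        obtain ⟨x, -, hx⟩ := (hb1 ⟨j, S, hSC⟩).2.2 y hyS
        exact ⟨x, Or.inr (mem_iUnion.2 ⟨_, hx⟩)⟩
      · obtain ⟨x, -, hx⟩ := hP2.2 y ⟨fun x h => hx ⟨x, h⟩, fun j S hSj hyS => hx2 ⟨j, S, hSj, hyS⟩⟩
        exact ⟨x, Or.inl (Or.inr hx)⟩

/-- `N` pulled back along `g` -/
def plb (N : Str a) (g : ℕ → ℕ) : Str a := fun n t => N n (fun i => g (t i))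

theorem iso_plb {g : ℕ → ℕ} (hg : Function.Bijective g) :
    Iso (plb N g) univ N univ (gr g univ) := by
  refine ⟨g, hg.bijOn_univ, fun n t _ => rfl, ?_⟩
  intro q hq
  exact hq.2.symm

/-- A structure equivalent to `M` is isomorphic to a colouring of `nu M`, with an equivalence over
the named points. -/
theorem pull_back (hS : ST (nu M) E C lt B) {ρ κ : Ordinal.{0}} (hA : AllD Unit ρ κ)
    (hR : ∀ j, RkC (C j) (lt j) ρ) {μ : Ordinal.{0}} (hμ : Lm μ) (hμ2 : ω + ω + ω ≤ μ)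
    (hμ3 : lev (κ + 1) ≤ μ) (hB : BF M univ N univ (μ + ω) ∅) :
    ∃ N' : Str a, nu N' = nu M ∧ Iso N' univ N univ ∅ ∧ BF M univ N' univ μ (idOn E) := by
  classical
  obtain ⟨f0, -, h0⟩ := hB.forth_omega hS.finE (subset_univ _) 0
  simp only [Nat.cast_zero, add_zero, empty_union] at h0
  set pe : Pos := gr f0 E with hpe
  have hb : Bas E pe := ⟨fun q hq => hq.1, fun x hx => ⟨f0 x, hx, rfl⟩⟩
  obtain ⟨g, hg1, hg2, hg3⟩ := glue_pe hS hA hR hμ hμ2 hμ3 hb (bf_nu h0)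
  have hbij : Function.Bijective g := by
    rw [← Set.bijOn_univ]
    exact hg1
  have h1 := iso_plb (N := N) hbij
  have hin : ∀ p : Pos, PIn p univ univ := fun p q _ => ⟨mem_univ _, mem_univ _⟩
  refine ⟨plb N g, ?_, h1.mono (empty_subset _), ?_⟩
  · funext n t
    rw [← hg2 n t fun i => mem_univ _]
    show nu (plb N g) n t = nu N n (fun i => g (t i))
    by_cases h : ∃ i j, t i ≠ t j
    · rw [nu_of_ne h, nu_of_ne]
      · rfl
      · obtain ⟨i, j, h2⟩ := h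
        exact ⟨i, j, fun h3 => h2 (hbij.1 h3)⟩
    · push Not at h
      rw [nu_of_eq h, nu_of_eq]
      intro i j
      rw [h i j]
  · have h2 : BF N univ (plb N g) univ μ (pinv (gr g univ)) := (h1.bf (hin _)).symm
    refine (h0.trans h2).mono ?_
    rintro ⟨x, y⟩ ⟨hx, hxy⟩
    simp only at hx hxy
    subst hxy
    have h3 : (x, f0 x) ∈ pe := ⟨hx, rfl⟩
    refine ⟨f0 x, h3, ?_⟩
    show (x, f0 x) ∈ gr g univ
    exact ⟨mem_univ _, (hg3 _ h3).symm⟩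

end Pool.H22.CO
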