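import Pool.Agent.H22.CO.Grp

/-!
# Equivalent tuples of the rest are in one orbit
-/

set_option autoImplicit false

namespace Pool.H22.CO

open Set Ordinal Pool.H62.VT Pool.H5.AA Pool.H22.SY

variable {a : ℕ → ℕ} {M : Str a} {D D' E : Set ℕ} {c : ℕ} {C : Fin c → Set (Finset ℕ)}
  {lt : Fin c → Finset ℕ → Finset ℕ → Prop} {B : Fin c → Pos → Prop}

theorem lm3 : Lm (ω + ω + ω) := by
  have hl : Order.IsSuccLimit (ω + ω + ω : Ordinal.{0}) :=
    Ordinal.isSuccLimit_add _ Ordinal.isSuccLimit_omega0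
  refine ⟨?_, fun β hβ => ?_⟩
  · conv_lhs => rw [← add_zero (ω + ω : Ordinal.{0})]
    exact add_lt_add_of_le_of_lt le_rfl omega0_pos
  · have := hl.succ_lt hβ
    rwa [← Ordinal.add_one_eq_succ] at this

theorem bas_id (E : Set ℕ) : Bas E (idOn E) :=
  ⟨fun q hq => hq.1, fun x hx => ⟨x, hx, rfl⟩⟩

theorem d0_self (hS : ST M E C lt B) : D0' M M C (idOn E) = D0 E C := by
  ext x
  exact (d0_iff hS (bas_id E) (BF_refl M univ univ (ω + ω)) (fun q hq => ⟨mem_univ _, hq.2⟩)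
    (⟨mem_univ x, rfl⟩ : (x, x) ∈ idOn univ)).symm

/-- the identity of a cell is admissible -/
theorem b_id (hS : ST M E C lt B) {j : Fin c} {S : Finset ℕ} (h : S ∈ C j) :
    B j (idOn (S : Set ℕ)) := by
  have h1 := hS.lab j S h S h (idOn univ) (BF_refl M univ univ ω)
    (fun q hq => ⟨mem_univ _, hq.2⟩) ⟨fun x hx => ⟨x, hx, mem_univ _, rfl⟩,
      fun x hx => ⟨x, hx, mem_univ _, rfl⟩⟩
  convert h1 using 1
  ext q
  constructor
  · rintro ⟨h2, h3⟩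
    exact ⟨⟨mem_univ _, h3⟩, h2, h3 ▸ h2⟩
  · rintro ⟨⟨-, h3⟩, h2, -⟩
    exact ⟨h2, h3⟩

/-- the identity of the cells can be added -/
theorem add_cells (hS : ST M E C lt B) {P : Pos} (hP : PI M M (idOn E ∪ P))
    (hPD : ∀ q ∈ P, q.1 ∈ D0 E C ∧ q.2 ∈ D0 E C) :
    PI M M (idOn (D0 E C)ᶜ ∪ P) := by
  classical
  apply pi_of_fin
  intro Q hQ hfin
  let I : Type := {w : Fin c × Finset ℕ // w.2 ∈ C w.1 ∧ ∃ q ∈ Q, q.1 ∈ w.2}
  have hI : Finite I := by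
    have hex : ∀ w : I, ∃ q, q ∈ Q ∧ q.1 ∈ w.1.2 := fun w => w.2.2
    choose f hf1 hf2 using hex
    have hQf : Finite Q := hfin
    refine Finite.of_injective (fun w : I => (⟨f w, hf1 w⟩ : Q)) ?_
    intro w w' h
    have h1 : f w = f w' := congrArg Subtype.val h
    obtain ⟨h2, h3⟩ := hS.dj _ _ _ _ w.2.1 w'.2.1 ⟨(f w).1, hf2 w, by rw [h1]; exact hf2 w'⟩
    exact Subtype.ext (Prod.ext h2 h3)
  have h1 := hS.free (Q ∩ P) I (fun w => w.1.1) (fun w => w.1.2) (fun w => w.1.2)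
    (fun w => idOn (w.1.2 : Set ℕ)) (hfin.inter_of_left _) hI
    (hP.mono (union_subset_union_right _ inter_subset_right)) (fun q hq => hPD q hq.2)
    (fun w => ⟨w.2.1, w.2.1, ⟨fun q hq => ⟨hq.1, hq.2 ▸ hq.1⟩,
      ⟨fun x hx => ⟨x, hx, hx, rfl⟩, fun x hx => ⟨x, hx, hx, rfl⟩⟩⟩, b_id hS w.2.1⟩)
    (fun w w' hne h => hne (by
      obtain ⟨x, hx⟩ := hS.ne _ _ w.2.1
      obtain ⟨h2, h3⟩ := hS.dj _ _ _ _ w.2.1 w'.2.1 ⟨x, hx, h ▸ hx⟩
      exact Subtype.ext (Prod.ext h2 h3)))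
    (fun w w' _ h => h)
  refine h1.mono ?_
  rintro q hq
  rcases hQ hq with ⟨h2, h3⟩ | h2
  · by_cases hE : q.1 ∈ E
    · exact Or.inl (Or.inl ⟨hE, h3⟩)
    · have : ∃ j, ∃ S ∈ C j, q.1 ∈ S := by
        by_contra hcon
        push Not at hcon
        exact h2 ⟨hE, hcon⟩
      obtain ⟨j, S, hSC, hqS⟩ := this
      exact Or.inr (mem_iUnion.2 ⟨⟨(j, S), hSC, q, hq, hqS⟩, hqS, h3⟩)
  · exact Or.inl (Or.inr ⟨hq, h2⟩)

/-- Equivalent tuples of the rest are in one orbit. -/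
theorem rec_total (hS : ST M E C lt B) {k : ℕ} {u v : Fin k → ℕ} (hu : ∀ i, u i ∈ D0 E C)
    (hB : BF M univ M univ (ω + ω + ω) (idOn E ∪ tp u v)) :
    ∃ g ∈ Au M (D0 E C), ∀ i, g (u i) = v i := by
  have hμ := lm3
  have hb := bas_id E
  obtain ⟨s0, hs0⟩ : ∃ s0 : Stt M M E C (idOn E) (ω + ω + ω), tp s0.x s0.x' = tp u v :=
    ⟨⟨k, u, v, hu, hB⟩, rfl⟩
  choose nx h1 h2 h3 using fun (s : Stt M M E C (idOn E) (ω + ω + ω)) (n : ℕ) =>
    step_state hS hb hμ s n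
  let s : ℕ → Stt M M E C (idOn E) (ω + ω + ω) := fun n => Nat.rec s0 (fun n t => nx t n) n
  have hs : ∀ n, s (n + 1) = nx (s n) n := fun n => rfl
  have hmono : ∀ m n, m ≤ n → tp (s m).x (s m).x' ⊆ tp (s n).x (s n).x' := by
    intro m n hmn
    induction n, hmn using Nat.le_induction with
    | base => exact subset_rfl
    | succ n _ ih =>
      rw [hs]
      exact ih.trans (h1 (s n) n)
  have hD : ∀ n, ∀ q ∈ tp (s n).x (s n).x', q.1 ∈ D0 E C ∧ q.2 ∈ D0 E C := by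
    rintro n q ⟨i, hi⟩
    have h4 : q.1 ∈ D0 E C := by rw [hi]; exact (s n).hx i
    refine ⟨h4, ?_⟩
    have h5 : (q.1, q.2) ∈ idOn E ∪ tp (s n).x (s n).x' := Or.inr ⟨i, hi⟩
    have h6 := (d0_iff hS hb ((s n).hB.level hμ.1.le) subset_union_left h5).1 h4
    rwa [d0_self hS] at h6
  have hPI : PI M M (idOn E ∪ ⋃ n, tp (s n).x (s n).x') := by
    apply pi_of_fin
    intro Q hQ hfin
    have hex : ∃ n, Q ⊆ idOn E ∪ tp (s n).x (s n).x' := by
      induction Q, hfin using Set.Finite.induction_on with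
      | empty => exact ⟨0, empty_subset _⟩
      | @insert q Q hq hfin ih =>
        obtain ⟨n, hn⟩ := ih ((subset_insert _ _).trans hQ)
        rcases hQ (mem_insert _ _) with h | h
        · exact ⟨n, insert_subset (Or.inl h) hn⟩
        · obtain ⟨m, hm⟩ := mem_iUnion.1 h
          refine ⟨max m n, insert_subset (Or.inr (hmono m _ (le_max_left _ _) hm)) ?_⟩
          exact hn.trans (union_subset_union_right _ (hmono n _ (le_max_right _ _)))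
    obtain ⟨n, hn⟩ := hex
    exact (s n).hB.pi.mono hn
  have hPI2 := add_cells hS hPI (by
    intro q hq
    obtain ⟨n, hn⟩ := mem_iUnion.1 hq
    exact hD n q hn)
  obtain ⟨g, hg, hgP⟩ := au_of_total (D := D0 E C) hPI2 (by
    intro x
    by_cases hx : x ∈ D0 E C
    · obtain ⟨y, hy⟩ := h2 (s x) x hx
      rw [← hs] at hy
      exact ⟨y, Or.inr (mem_iUnion.2 ⟨x + 1, hy⟩)⟩
    · exact ⟨x, Or.inl ⟨hx, rfl⟩⟩) (by
    intro y
    by_cases hy : y ∈ D0 E C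
    · obtain ⟨x, hx⟩ := h3 (s y) y (by rw [d0_self hS]; exact hy)
      rw [← hs] at hx
      exact ⟨x, Or.inr (mem_iUnion.2 ⟨y + 1, hx⟩)⟩
    · exact ⟨y, Or.inl ⟨hy, rfl⟩⟩) (fun x hx => Or.inl ⟨hx, rfl⟩)
  refine ⟨g, hg, fun i => ?_⟩
  have h4 : (u i, v i) ∈ tp s0.x s0.x' := by
    rw [hs0]
    exact ⟨i, rfl⟩
  exact hgP (u i, v i) (Or.inr (mem_iUnion.2 ⟨0, h4⟩))

end Pool.H22.CO
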