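import Pool.Agent.H22.CO.RefS

/-!
# The admissible enumerations of the symmetric cells, as partial isomorphisms
-/

set_option autoImplicit false

namespace Pool.H22.CO

open Set Function Ordinal Pool.H62.VT Pool.H5.AA Pool.H22.SY

variable {a : ℕ → ℕ} {M : Str a} {D X : Set ℕ} {s : ℕ} {ms : Fin s → ℕ} {z : ∀ j, Fin (ms j) → ℕ}
  {m : ℕ}

/-- `z` is moved to `q`, `q` to a rearrangement of `z`, and everything else is fixed -/
def PR (M : Str a) (z q : Fin m → ℕ) : Prop :=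
  ∃ ρ : Equiv.Perm (Fin m), PI M M ({p | p.1 = p.2 ∧ ∀ d, p.1 ≠ z d ∧ p.1 ≠ q d} ∪
    {p | ∃ d, p = (z d, q d) ∨ p = (q d, z (ρ d))})

theorem pr_of_asq {z q : Fin m → ℕ} (hz : Injective z) (h : AsQ M D z q) : PR M z q := by
  obtain ⟨h1, h2, h3, h4⟩ := h
  refine ⟨1, ?_⟩
  have key : ∀ p ∈ ({p | p.1 = p.2 ∧ ∀ d, p.1 ≠ z d ∧ p.1 ≠ q d} ∪
      {p | ∃ d, p = (z d, q d) ∨ p = (q d, z ((1 : Equiv.Perm (Fin m)) d))} : Pos),
      p.2 = swf z q p.1 := by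
    rintro p (⟨h5, h6⟩ | ⟨d, rfl | rfl⟩)
    · rw [swf_out (fun d => (h6 d).1) fun d => (h6 d).2]
      exact h5.symm
    · exact (swf_z hz d).symm
    · exact (swf_q h1 h3 d).symm
  have hinj : Injective (swf z q) := fun x y hxy => by
    rw [← swf_swf hz h1 h3 x, hxy, swf_swf hz h1 h3]
  refine ⟨fun n t ht => ?_, fun p hp p' hp' => ?_⟩
  · have e : (fun i => (t i).2) = fun i => swf z q (t i).1 := funext fun i => key _ (ht i)
    rw [e]
    exact (h4 n _).symm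
  · rw [key p hp, key p' hp', hinj.eq_iff]

theorem loc_of_pr {z q : Fin m → ℕ} (hz : Injective z) (hq : Injective q) (hzD : ∀ d, z d ∈ D)
    (hqD : ∀ d, q d ∈ D) (h : PR M z q) :
    ∃ k ∈ Au M D, Loc k (Finset.univ.image z) (Finset.univ.image q) ∧ ∀ d, k (z d) = q d := by
  classical
  obtain ⟨ρ, h⟩ := h
  obtain ⟨g, hg, hgP⟩ := au_of_total (D := D) h (by
    intro x
    by_cases h1 : ∃ d, x = z d
    · obtain ⟨d, rfl⟩ := h1
      exact ⟨q d, Or.inr ⟨d, Or.inl rfl⟩⟩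
    · by_cases h2 : ∃ d, x = q d
      · obtain ⟨d, rfl⟩ := h2
        exact ⟨z (ρ d), Or.inr ⟨d, Or.inr rfl⟩⟩
      · push Not at h1 h2
        exact ⟨x, Or.inl ⟨rfl, fun d => ⟨h1 d, h2 d⟩⟩⟩) (by
    intro y
    by_cases h1 : ∃ d, y = z d
    · obtain ⟨d, rfl⟩ := h1
      refine ⟨q (ρ.symm d), Or.inr ⟨ρ.symm d, Or.inr ?_⟩⟩
      rw [Equiv.apply_symm_apply]
    · by_cases h2 : ∃ d, y = q d
      · obtain ⟨d, rfl⟩ := h2
        exact ⟨z d, Or.inr ⟨d, Or.inl rfl⟩⟩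
      · push Not at h1 h2
        exact ⟨y, Or.inl ⟨rfl, fun d => ⟨h1 d, h2 d⟩⟩⟩) (fun x hx =>
    Or.inl ⟨rfl, fun d => ⟨fun (h' : x = z d) => hx (h' ▸ hzD d),
      fun (h' : x = q d) => hx (h' ▸ hqD d)⟩⟩)
  have hgz : ∀ d, g (z d) = q d := fun d => hgP (z d, q d) (Or.inr ⟨d, Or.inl rfl⟩)
  refine ⟨g, hg, ⟨?_, fun x hx hx' => ?_⟩, hgz⟩
  · rw [Finset.image_image]
    exact Finset.image_congr fun d _ => hgz d
  · refine hgP (x, x) (Or.inl ⟨rfl, fun d => ⟨fun h => hx ?_, fun h => hx' ?_⟩⟩)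
    · exact Finset.mem_image.2 ⟨d, Finset.mem_univ _, h.symm⟩
    · exact Finset.mem_image.2 ⟨d, Finset.mem_univ _, h.symm⟩

/-- the two descriptions of the admissible enumerations -/
theorem a2_iff (hQ : SQ M D X ms z) (j : Fin s) (q : Fin (ms j) → ℕ) :
    (Injective q ∧ (∀ d, q d ∈ D ∧ q d ∉ X) ∧ PR M (z j) q) ↔ AsQ M D (z j) q := by
  constructor
  · rintro ⟨h1, h2, h3⟩
    obtain ⟨k, hk, hl, hkz⟩ := loc_of_pr (hQ.zinj j) h1 (fun d => hQ.sub (hQ.zX j d))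
      (fun d => (h2 d).1) h3
    have e : q = fun d => k (z j d) := funext fun d => (hkz d).symm
    rw [e]
    refine asq_of_loc (hQ.zinj j) (hQ.cell j) (fun x hx => ?_) hk hl ?_
    · obtain ⟨d, -, rfl⟩ := Finset.mem_image.1 hx
      exact (h2 d).1
    · intro h4
      have h5 : q ⟨0, hQ.pos j⟩ ∈ Finset.univ.image (z j) := by
        rw [← h4]
        exact Finset.mem_image_of_mem q (Finset.mem_univ _)
      obtain ⟨d, -, hd⟩ := Finset.mem_image.1 h5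
      exact (h2 ⟨0, hQ.pos j⟩).2 (hd ▸ hQ.zX j d)
  · intro h
    exact ⟨h.1, fun d => ⟨h.2.1 d, hQ.out j q h d⟩, pr_of_asq (hQ.zinj j) h⟩

end Pool.H22.CO
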